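import Pool.Agent.Helper57.TW.Goals

set_option autoImplicit false

/-!
# MP_74f661_nt: the weights are almost constant on a narrow tent (packet NA of helper57)
-/

namespace Pool.Agent.Helper53.TW

open Finset Filter Topology
open Pool.Agent.Helper88.CR (rg)
open Pool.Agent.Helper57.TW
open scoped ArithmeticFunction Classical

theorem te_nonneg (v η : ℝ) (n : ℕ) : 0 ≤ te v η n := le_max_left _ _

theorem te_le_one {v η : ℝ} (hη : 0 < η) (n : ℕ) : te v η n ≤ 1 := by
  unfold te
  apply max_le zero_le_one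
  have : 0 ≤ |Real.log (n / v)| / η := by positivity
  linarith only [this]

theorem te_supp {v η : ℝ} (hη : 0 < η) {n : ℕ} (h : te v η n ≠ 0) :
    |Real.log (n / v)| < η := by
  by_contra h1
  push Not at h1
  apply h
  unfold te
  apply max_eq_left
  have : 1 ≤ |Real.log (n / v)| / η := by
    rw [le_div_iff₀ hη, one_mul]
    exact h1
  linarith only [this]

theorem card_win {q : ℕ} (hq : 1 ≤ q) (a : ℕ) {A B : ℕ} (hAB : A ≤ B) :
    (((Ioc A B).filter (fun n => n ≡ a [MOD q])).card : ℝ) ≤ ((B : ℝ) - A) / q + 1 := by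
  have hq0 : (0 : ℚ) < q := by exact_mod_cast hq
  have h1 := Nat.Ioc_filter_modEq_card A B (show 0 < q by omega) a
  have h2 : (((Ioc A B).filter (fun n => n ≡ a [MOD q])).card : ℚ) ≤ ((B : ℚ) - A) / q + 1 := by
    have h3 : (((Ioc A B).filter (fun n => n ≡ a [MOD q])).card : ℚ)
        = ((max (⌊((B : ℚ) - a) / q⌋ - ⌊((A : ℚ) - a) / q⌋) 0 : ℤ) : ℚ) := by
      exact_mod_cast h1
    rw [h3, Int.cast_max, Int.cast_sub]
    have hAB' : (A : ℚ) ≤ B := by exact_mod_cast hAB
    apply max_le
    · have h4 := Int.floor_le (((B : ℚ) - a) / q)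
      have h5 := Int.lt_floor_add_one (((A : ℚ) - a) / q)
      have h6 : ((B : ℚ) - A) / q = ((B : ℚ) - a) / q - ((A : ℚ) - a) / q := by ring
      rw [h6]
      linarith only [h4, h5]
    · have : 0 ≤ ((B : ℚ) - A) / q := div_nonneg (by linarith only [hAB']) hq0.le
      simp only [Int.cast_zero]
      linarith only [this]
  have h7 := (Rat.cast_le (K := ℝ)).2 h2
  push_cast at h7
  exact h7

theorem exp_win {η : ℝ} (h0 : 0 ≤ η) (h1 : η ≤ 1) : Real.exp η - Real.exp (-η) ≤ 3 * η := by
  have h2 := Real.abs_exp_sub_one_sub_id_le (x := η) (by rw [abs_of_nonneg h0]; exact h1)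
  have h3 := (abs_le.1 h2).2
  have h4 := Real.add_one_le_exp (-η)
  nlinarith only [h2, h3, h4, h0, h1]

theorem Dv_le {x q a : ℕ} {v η : ℝ} (hx : 4 ≤ x) (hq : 1 ≤ q) (hv0 : 0 < v) (hv : v ≤ x)
    (hη : 0 < η) (hη1 : η ≤ 1) (hqx : (q : ℝ) ≤ η * x) :
    Dv x q a v η ≤ 10 * (η * x * Real.log x) / q := by
  have hx0 : (4 : ℝ) ≤ x := by exact_mod_cast hx
  have hlx : 0 < Real.log x := Real.log_pos (by linarith only [hx0])
  have hq0 : (0 : ℝ) < q := by exact_mod_cast hq
  set A : ℕ := ⌊v * Real.exp (-η)⌋₊ with hA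
  set B : ℕ := ⌊v * Real.exp η⌋₊ with hB
  have hAB : A ≤ B := Nat.floor_le_floor
    (mul_le_mul_of_nonneg_left (Real.exp_le_exp.2 (by linarith only [hη])) hv0.le)
  have hsub : ((Icc 1 (4 * x)).filter (fun n => n ≡ a [MOD q] ∧ rg (zx x) n)).filter
      (fun n => te v η n ≠ 0) ⊆ (Ioc A B).filter (fun n => n ≡ a [MOD q]) := by
    intro n hn
    simp only [mem_filter, mem_Icc, mem_Ioc] at hn ⊢
    have hn1 : (1 : ℝ) ≤ n := by exact_mod_cast hn.1.1.1
    have hn0 : (0 : ℝ) < n := by linarith only [hn1]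
    have h1 := abs_lt.1 (te_supp hη hn.2)
    have h2 : (n : ℝ) = v * Real.exp (Real.log (n / v)) := by
      rw [Real.exp_log (by positivity)]
      field_simp
    refine ⟨⟨?_, ?_⟩, hn.1.2.1⟩
    · have h3 : v * Real.exp (-η) < n := by
        rw [h2]
        exact mul_lt_mul_of_pos_left (Real.exp_lt_exp.2 h1.1) hv0
      exact (Nat.floor_lt (by positivity)).2 h3
    · apply Nat.le_floor
      rw [h2]
      exact (mul_lt_mul_of_pos_left (Real.exp_lt_exp.2 h1.2) hv0).le
  have hcard : (((Ioc A B).filter (fun n => n ≡ a [MOD q])).card : ℝ) ≤ 5 * (η * x) / q := by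
    have h1 := card_win hq a hAB
    have h2 : (B : ℝ) ≤ v * Real.exp η := Nat.floor_le (by positivity)
    have h3 : v * Real.exp (-η) < A + 1 := Nat.lt_floor_add_one _
    have h4 := exp_win hη.le hη1
    have h5 : v * (Real.exp η - Real.exp (-η)) ≤ v * (3 * η) := mul_le_mul_of_nonneg_left h4 hv0.le
    have h6 : v * (3 * η) ≤ 3 * (η * x) := by nlinarith only [hv, hη]
    have h7 : ((B : ℝ) - A) ≤ 3 * (η * x) + 1 := by linarith only [h2, h3, h5, h6]
    have hq1 : (1 : ℝ) ≤ q := by exact_mod_cast hq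
    have h8 : ((B : ℝ) - A) / q ≤ (3 * (η * x) + 1) / q := by
      apply div_le_div_of_nonneg_right h7 hq0.le
    have h9 : (3 * (η * x) + 1) / q + 1 ≤ 5 * (η * x) / q := by
      rw [div_add_one hq0.ne']
      apply div_le_div_of_nonneg_right _ hq0.le
      linarith only [hqx, hq1]
    linarith only [h1, h8, h9]
  have hlog4 : ∀ n ∈ (Icc 1 (4 * x)).filter (fun n => n ≡ a [MOD q] ∧ rg (zx x) n),
      ArithmeticFunction.vonMangoldt n * te v η n ≤ 2 * Real.log x := by
    intro n hn
    simp only [mem_filter, mem_Icc] at hn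
    have hn1 : (1 : ℝ) ≤ n := by exact_mod_cast hn.1.1
    have h1 : ArithmeticFunction.vonMangoldt n ≤ Real.log n := ArithmeticFunction.vonMangoldt_le_log
    have h2 : Real.log n ≤ Real.log ((x : ℝ) ^ 2) := by
      apply Real.log_le_log (by linarith only [hn1])
      have h3 : (n : ℝ) ≤ 4 * x := by exact_mod_cast hn.1.2
      nlinarith only [h3, hx0]
    rw [Real.log_pow] at h2
    push_cast at h2
    have h4 : 0 ≤ ArithmeticFunction.vonMangoldt n := ArithmeticFunction.vonMangoldt_nonneg
    calc ArithmeticFunction.vonMangoldt n * te v η n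
        ≤ ArithmeticFunction.vonMangoldt n * 1 :=
          mul_le_mul_of_nonneg_left (te_le_one hη n) h4
      _ ≤ 2 * Real.log x := by linarith only [h1, h2]
  unfold Dv
  rw [← sum_filter_add_sum_filter_not _ (fun n => te v η n ≠ 0)]
  have hz : ∑ n ∈ ((Icc 1 (4 * x)).filter (fun n => n ≡ a [MOD q] ∧ rg (zx x) n)).filter
      (fun n => ¬ te v η n ≠ 0), ArithmeticFunction.vonMangoldt n * te v η n = 0 := by
    apply sum_eq_zero
    intro n hn
    have := (mem_filter.1 hn).2
    push Not at this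
    rw [this, mul_zero]
  rw [hz, add_zero]
  calc ∑ n ∈ ((Icc 1 (4 * x)).filter (fun n => n ≡ a [MOD q] ∧ rg (zx x) n)).filter
        (fun n => te v η n ≠ 0), ArithmeticFunction.vonMangoldt n * te v η n
      ≤ ∑ n ∈ ((Icc 1 (4 * x)).filter (fun n => n ≡ a [MOD q] ∧ rg (zx x) n)).filter
        (fun n => te v η n ≠ 0), 2 * Real.log x :=
        sum_le_sum (fun n hn => hlog4 n (mem_of_mem_filter n hn))
    _ = ((((Icc 1 (4 * x)).filter (fun n => n ≡ a [MOD q] ∧ rg (zx x) n)).filter
        (fun n => te v η n ≠ 0)).card : ℝ) * (2 * Real.log x) := by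
        rw [sum_const, nsmul_eq_mul]
    _ ≤ (((Ioc A B).filter (fun n => n ≡ a [MOD q])).card : ℝ) * (2 * Real.log x) := by
        apply mul_le_mul_of_nonneg_right _ (by positivity)
        exact_mod_cast card_le_card hsub
    _ ≤ 5 * (η * x) / q * (2 * Real.log x) :=
        mul_le_mul_of_nonneg_right hcard (by positivity)
    _ = 10 * (η * x * Real.log x) / q := by ring

theorem abs_exp_sub_one_le' (y : ℝ) : |Real.exp y - 1| ≤ |y| * Real.exp |y| := by
  rcases le_total 0 y with h | h
  · have h1 : 1 ≤ Real.exp y := Real.one_le_exp h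
    rw [abs_of_nonneg (by linarith only [h1]), abs_of_nonneg h]
    have h2 := Real.add_one_le_exp (-y)
    have h3 : Real.exp (-y) * Real.exp y = 1 := by
      rw [← Real.exp_add]
      simp
    nlinarith only [h1, h2, h3]
  · have h1 : Real.exp y ≤ 1 := Real.exp_le_one_iff.2 h
    rw [abs_of_nonpos (by linarith only [h1]), abs_of_nonpos h]
    have h2 := Real.add_one_le_exp y
    have h3 : 1 ≤ Real.exp (-y) := Real.one_le_exp (by linarith only [h])
    nlinarith only [h1, h2, h3, h]

/-- the constant value of the weight -/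
noncomputable def Fv (x k : ℕ) (v : ℝ) : ℝ :=
  Real.log v ^ k / (k.factorial : ℝ) * v ^ (-(1 + k / Real.log x))

theorem log_diff_abs {a b m : ℝ} (hm : 0 < m) (ha : m ≤ a) (hb : m ≤ b) :
    |Real.log a - Real.log b| ≤ |a - b| / m := by
  have ha0 : 0 < a := lt_of_lt_of_le hm ha
  have hb0 : 0 < b := lt_of_lt_of_le hm hb
  rw [abs_le]
  have key : ∀ c d : ℝ, m ≤ c → m ≤ d → Real.log c - Real.log d ≤ |c - d| / m := by
    intro c d hc hd
    have hc0 : 0 < c := lt_of_lt_of_le hm hc
    have hd0 : 0 < d := lt_of_lt_of_le hm hd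
    rw [← Real.log_div hc0.ne' hd0.ne']
    have h1 := Real.log_le_sub_one_of_pos (show 0 < c / d by positivity)
    have h2 : c / d - 1 = (c - d) / d := by
      field_simp
    have h3 : (c - d) / d ≤ |c - d| / d := div_le_div_of_nonneg_right (le_abs_self _) hd0.le
    have h4 : |c - d| / d ≤ |c - d| / m := div_le_div_of_nonneg_left (abs_nonneg _) hm hd
    linarith only [h1, h2, h3, h4]
  constructor
  · have := key b a hb ha
    rw [abs_sub_comm b a] at this
    linarith only [this]
  · exact key a b ha hb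

theorem fk_near {x k n : ℕ} {v η : ℝ} (hL : 64 ≤ Real.log x) (hk : (k : ℝ) ^ 2 ≤ Real.log x)
    (hv : (x : ℝ) / 16 ≤ v) (hv0 : 0 < v) (hη1 : η ≤ 1) (hn1 : 1 ≤ n)
    (ht : |Real.log (n / v)| < η) :
    |fk x k n - Fv x k v * ArithmeticFunction.vonMangoldt n|
      ≤ 81 * η * (Fv x k v * ArithmeticFunction.vonMangoldt n) := by
  have hx0 : (0 : ℝ) < x := by
    rcases Nat.eq_zero_or_pos x with h | h
    · rw [h] at hL
      norm_num at hL
    · exact_mod_cast h
  have hn0 : (0 : ℝ) < n := by exact_mod_cast hn1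
  have hη0 : 0 < η := lt_of_le_of_lt (abs_nonneg _) ht
  have hk8 : 8 * (k : ℝ) ≤ Real.log x := by
    have hk0 : (0 : ℝ) ≤ k := Nat.cast_nonneg k
    by_contra h
    push Not at h
    nlinarith only [h, hk, hL, hk0]
  have hlog16 : Real.log 16 ≤ 3 := by
    rw [show (16 : ℝ) = 2 ^ 4 by norm_num, Real.log_pow]
    have := Real.log_two_lt_d9
    push_cast
    linarith only [this]
  have hlv : Real.log x - 3 ≤ Real.log v := by
    have h1 : Real.log (x / 16) ≤ Real.log v := Real.log_le_log (by positivity) hv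
    rw [Real.log_div hx0.ne' (by norm_num)] at h1
    linarith only [h1, hlog16]
  rw [Real.log_div hn0.ne' hv0.ne'] at ht
  set t : ℝ := Real.log n - Real.log v with htdef
  have hln : Real.log x / 2 ≤ Real.log n := by
    have := (abs_lt.1 ht).1
    linarith only [this, hlv, hL, hη1, htdef]
  have hlv2 : Real.log x / 2 ≤ Real.log v := by linarith only [hlv, hL]
  have hlv0 : 0 < Real.log v := by linarith only [hlv2, hL]
  have hln0 : 0 < Real.log n := by linarith only [hln, hL]
  set δ : ℝ := (k : ℝ) / Real.log x with hδ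
  have hLp : 0 < Real.log x := by linarith only [hL]
  have hδ0 : 0 ≤ δ := by positivity
  have hδ1 : δ ≤ 1 := by
    rw [hδ, div_le_one hLp]
    linarith only [hk8, Nat.cast_nonneg (α := ℝ) k]
  set y : ℝ := k * (Real.log (Real.log n) - Real.log (Real.log v)) - (1 + δ) * t with hy
  have hfk : fk x k n = Fv x k v * ArithmeticFunction.vonMangoldt n * Real.exp y := by
    have e1 : Real.log n ^ k = Real.log v ^ k
        * Real.exp (k * (Real.log (Real.log n) - Real.log (Real.log v))) := by
      have e2 : Real.log n ^ k = Real.exp (k * Real.log (Real.log n)) := by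
        rw [mul_comm, ← Real.rpow_def_of_pos hln0, Real.rpow_natCast]
      have e3 : Real.log v ^ k = Real.exp (k * Real.log (Real.log v)) := by
        rw [mul_comm, ← Real.rpow_def_of_pos hlv0, Real.rpow_natCast]
      rw [e2, e3, ← Real.exp_add]
      congr 1
      ring
    have e4 : (n : ℝ) ^ (-(1 + δ)) = v ^ (-(1 + δ)) * Real.exp (-((1 + δ) * t)) := by
      rw [Real.rpow_def_of_pos hn0, Real.rpow_def_of_pos hv0, ← Real.exp_add]
      congr 1
      rw [htdef]
      ring
    unfold fk Fv
    rw [← hδ, e4, e1, hy, sub_eq_add_neg (_ * _), Real.exp_add]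
    ring
  have hyb : |y| ≤ 3 * η := by
    have h1 := log_diff_abs (show 0 < Real.log x / 2 by linarith only [hL]) hln hlv2
    rw [← htdef] at h1
    have h2 : |(k : ℝ) * (Real.log (Real.log n) - Real.log (Real.log v))| ≤ |t| := by
      rw [abs_mul, Nat.abs_cast]
      calc (k : ℝ) * |Real.log (Real.log n) - Real.log (Real.log v)|
          ≤ k * (|t| / (Real.log x / 2)) := mul_le_mul_of_nonneg_left h1 (Nat.cast_nonneg _)
        _ = (2 * k / Real.log x) * |t| := by
            field_simp
        _ ≤ 1 * |t| := by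
            apply mul_le_mul_of_nonneg_right _ (abs_nonneg _)
            rw [div_le_one hLp]
            linarith only [hk8, Nat.cast_nonneg (α := ℝ) k]
        _ = |t| := one_mul _
    have h3 : |(1 + δ) * t| ≤ 2 * |t| := by
      rw [abs_mul, abs_of_pos (show 0 < 1 + δ by linarith only [hδ0])]
      apply mul_le_mul_of_nonneg_right _ (abs_nonneg _)
      linarith only [hδ1]
    have h4 := abs_sub (k * (Real.log (Real.log n) - Real.log (Real.log v))) ((1 + δ) * t)
    rw [← hy] at h4
    linarith only [h2, h3, h4, ht]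
  have hexp3 : Real.exp |y| ≤ 27 := by
    have h1 : |y| ≤ 3 := by linarith only [hyb, hη1]
    calc Real.exp |y| ≤ Real.exp 3 := Real.exp_le_exp.2 h1
      _ = Real.exp 1 ^ 3 := by
          rw [← Real.exp_nat_mul]
          norm_num
      _ ≤ 3 ^ 3 := by
          apply pow_le_pow_left₀ (Real.exp_pos _).le
          have := Real.exp_one_lt_d9
          linarith only [this]
      _ = 27 := by norm_num
  have hF0 : 0 ≤ Fv x k v := by
    unfold Fv
    positivity
  have hΛ : 0 ≤ ArithmeticFunction.vonMangoldt n := ArithmeticFunction.vonMangoldt_nonneg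
  have h5 := abs_exp_sub_one_le' y
  have h6 : |y| * Real.exp |y| ≤ 3 * η * 27 :=
    mul_le_mul hyb hexp3 (Real.exp_pos _).le (by positivity)
  rw [hfk]
  have e : Fv x k v * ArithmeticFunction.vonMangoldt n * Real.exp y
      - Fv x k v * ArithmeticFunction.vonMangoldt n
      = (Fv x k v * ArithmeticFunction.vonMangoldt n) * (Real.exp y - 1) := by ring
  rw [e, abs_mul, abs_of_nonneg (mul_nonneg hF0 hΛ), mul_comm]
  apply mul_le_mul_of_nonneg_right _ (mul_nonneg hF0 hΛ)
  linarith only [h5, h6]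

theorem Fv_ge {x k : ℕ} {v : ℝ} (hL : 64 ≤ Real.log x) (hk : (k : ℝ) ^ 2 ≤ Real.log x)
    (hv : (x : ℝ) / 16 ≤ v) (hvx : v ≤ x) (hv0 : 0 < v) : m0 x k / (2 * x) ≤ Fv x k v := by
  have hx0 : (0 : ℝ) < x := lt_of_lt_of_le hv0 hvx
  have hLp : 0 < Real.log x := by linarith only [hL]
  have hk8 : 8 * (k : ℝ) ≤ Real.log x := by
    have hk0 : (0 : ℝ) ≤ k := Nat.cast_nonneg k
    by_contra h
    push Not at h
    nlinarith only [h, hk, hL, hk0]
  have hlog16 : Real.log 16 ≤ 3 := by
    rw [show (16 : ℝ) = 2 ^ 4 by norm_num, Real.log_pow]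
    have := Real.log_two_lt_d9
    push_cast
    linarith only [this]
  have hlv : Real.log x - 3 ≤ Real.log v := by
    have h1 : Real.log (x / 16) ≤ Real.log v := Real.log_le_log (by positivity) hv
    rw [Real.log_div hx0.ne' (by norm_num)] at h1
    linarith only [h1, hlog16]
  have h1 : Real.log x ^ k / 2 ≤ Real.log v ^ k := by
    have h2 : (1 - 3 / Real.log x) * Real.log x ≤ Real.log v := by
      have : (1 - 3 / Real.log x) * Real.log x = Real.log x - 3 := by
        field_simp
      rw [this]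
      exact hlv
    have h30 : 3 / Real.log x ≤ 1 := by
      rw [div_le_one hLp]
      linarith only [hL]
    have h3 : 1 / 2 ≤ (1 - 3 / Real.log x) ^ k := by
      have h4 := one_add_mul_le_pow (a := -(3 / Real.log x)) (by linarith only [h30]) k
      rw [← sub_eq_add_neg] at h4
      have h5 : (k : ℝ) * (3 / Real.log x) ≤ 1 / 2 := by
        rw [mul_div_assoc', div_le_iff₀ hLp]
        linarith only [hk8, Nat.cast_nonneg (α := ℝ) k]
      linarith only [h4, h5]
    calc Real.log x ^ k / 2 = 1 / 2 * Real.log x ^ k := by ring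
      _ ≤ (1 - 3 / Real.log x) ^ k * Real.log x ^ k :=
          mul_le_mul_of_nonneg_right h3 (by positivity)
      _ = ((1 - 3 / Real.log x) * Real.log x) ^ k := (mul_pow _ _ _).symm
      _ ≤ Real.log v ^ k := by
          apply pow_le_pow_left₀ _ h2
          apply mul_nonneg _ hLp.le
          linarith only [h30]
  have h2 : Real.exp (-(k : ℝ)) / x ≤ v ^ (-(1 + k / Real.log x)) := by
    have e : (x : ℝ) ^ (-(1 + k / Real.log x)) = Real.exp (-(k : ℝ)) / x := by
      rw [Real.rpow_def_of_pos hx0]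
      have e1 : Real.log x * (-(1 + k / Real.log x)) = -(k : ℝ) - Real.log x := by
        field_simp
        ring
      rw [e1, Real.exp_sub, Real.exp_log hx0]
    rw [← e]
    apply Real.rpow_le_rpow_of_nonpos hv0 hvx
    have : 0 ≤ (k : ℝ) / Real.log x := by positivity
    linarith only [this]
  unfold m0 Fv
  have hf : (0 : ℝ) < (k.factorial : ℝ) := by exact_mod_cast k.factorial_pos
  calc Real.log x ^ k * Real.exp (-(k : ℝ)) / (k.factorial : ℝ) / (2 * x)
      = (Real.log x ^ k / 2 / (k.factorial : ℝ)) * (Real.exp (-(k : ℝ)) / x) := by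
        field_simp
    _ ≤ (Real.log v ^ k / (k.factorial : ℝ)) * v ^ (-(1 + k / Real.log x)) := by
        apply mul_le_mul _ h2 (by positivity) _
        · exact div_le_div_of_nonneg_right h1 hf.le
        · apply div_nonneg _ hf.le
          have : (0 : ℝ) ≤ Real.log x ^ k / 2 := by positivity
          linarith only [this, h1]

/-- PACKET NA. -/
theorem na : Pool.Agent.Helper57.TW.StmtNA := by
  refine ⟨1620, by norm_num, ⌈Real.exp 64⌉₊, ?_⟩
  intro x k q a hx hk1 hk hq v η hv hvx hη hη1 hqx
  have hxe : Real.exp 64 ≤ x := (Nat.le_ceil _).trans (by exact_mod_cast hx)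
  have hx0 : (0 : ℝ) < x := lt_of_lt_of_le (Real.exp_pos _) hxe
  have hL : 64 ≤ Real.log x := by
    rw [Real.le_log_iff_exp_le hx0]
    exact hxe
  have hx4 : 4 ≤ x := by
    have h1 : (65 : ℝ) ≤ x := by
      have := Real.add_one_le_exp (64 : ℝ)
      linarith only [this, hxe]
    have h2 : 65 ≤ x := by exact_mod_cast h1
    omega
  have hv0 : 0 < v := by
    have : 0 < (x : ℝ) / 16 := by positivity
    linarith only [this, hv]
  have hLp : 0 < Real.log x := by linarith only [hL]
  have hq0 : (0 : ℝ) < q := by exact_mod_cast hq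
  have hφ0 : (0 : ℝ) < (Nat.totient q : ℝ) := by
    exact_mod_cast Nat.totient_pos.2 (by omega)
  have hφq : (Nat.totient q : ℝ) ≤ q := by exact_mod_cast Nat.totient_le q
  set φ : ℝ := (Nat.totient q : ℝ) with hφ
  set F : ℝ := Fv x k v with hF
  have hFge : m0 x k / (2 * x) ≤ F := Fv_ge hL hk hv hvx hv0
  have hm0 : 0 < m0 x k := by
    unfold m0
    have hf : (0 : ℝ) < (k.factorial : ℝ) := by exact_mod_cast k.factorial_pos
    positivity
  have hF0 : 0 < F := lt_of_lt_of_le (by positivity) hFge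
  set R : Finset ℕ := (Icc 1 (4 * x)).filter (rg (zx x)) with hR
  set w : ℕ → ℝ := fun n => (if n ≡ a [MOD q] then 1 else 0) - 1 / φ with hw
  have hDq : Dv x q a v η = ∑ n ∈ R, ArithmeticFunction.vonMangoldt n * te v η n
      * (if n ≡ a [MOD q] then 1 else 0) := by
    unfold Dv
    rw [hR]
    simp only [mul_ite, mul_one, mul_zero]
    rw [← sum_filter, filter_filter]
    apply sum_congr _ (fun _ _ => rfl)
    ext n
    simp only [mem_filter, mem_Icc]
    tauto
  have hD1 : Dv x 1 0 v η = ∑ n ∈ R, ArithmeticFunction.vonMangoldt n * te v η n := by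
    unfold Dv
    rw [hR]
    apply sum_congr _ (fun _ _ => rfl)
    ext n
    simp only [mem_filter, mem_Icc]
    have : n ≡ 0 [MOD 1] := Nat.modEq_one
    tauto
  set S : ℝ := ∑ n ∈ R, fk x k n * te v η n * w n with hS
  have hdiff : F * (Dv x q a v η - Dv x 1 0 v η / φ) - S
      = ∑ n ∈ R, (F * ArithmeticFunction.vonMangoldt n - fk x k n) * te v η n * w n := by
    rw [hDq, hD1, hS, mul_sub, mul_sum, mul_div_assoc', mul_sum, sum_div, ← sum_sub_distrib,
      ← sum_sub_distrib]
    apply sum_congr rfl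
    intro n _
    rw [hw]
    simp only
    ring
  have hbd : |F * (Dv x q a v η - Dv x 1 0 v η / φ) - S|
      ≤ 81 * η * F * (Dv x q a v η + Dv x 1 0 v η / φ) := by
    rw [hdiff]
    refine (abs_sum_le_sum_abs _ _).trans ?_
    have e : 81 * η * F * (Dv x q a v η + Dv x 1 0 v η / φ) = ∑ n ∈ R, 81 * η
        * (F * ArithmeticFunction.vonMangoldt n) * te v η n
          * ((if n ≡ a [MOD q] then 1 else 0) + 1 / φ) := by
      rw [hDq, hD1, mul_add, mul_sum, mul_div_assoc', mul_sum, sum_div, ← sum_add_distrib]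
      apply sum_congr rfl
      intro n _
      ring
    rw [e]
    apply sum_le_sum
    intro n hn
    rw [hR, mem_filter, mem_Icc] at hn
    by_cases h0 : te v η n = 0
    · rw [h0]
      simp
    · have h1 := fk_near (n := n) hL hk hv hv0 hη1 hn.1.1 (te_supp hη h0)
      rw [abs_sub_comm, ← hF] at h1
      rw [abs_mul, abs_mul, abs_of_nonneg (te_nonneg v η n)]
      have h2 : |w n| ≤ (if n ≡ a [MOD q] then 1 else 0) + 1 / φ := by
        have h3 : 0 ≤ 1 / φ := by positivity
        rw [hw]
        simp only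
        rw [abs_le]
        split_ifs <;> constructor <;> linarith only [h3]
      apply mul_le_mul _ h2 (abs_nonneg _) _
      · exact mul_le_mul_of_nonneg_right h1 (te_nonneg v η n)
      · have h4 : 0 ≤ ArithmeticFunction.vonMangoldt n := ArithmeticFunction.vonMangoldt_nonneg
        have h5 := te_nonneg v η n
        positivity
  have hDqle : Dv x q a v η ≤ 10 * (η * x * Real.log x) / φ := by
    refine (Dv_le hx4 hq hv0 hvx hη hη1 hqx).trans ?_
    apply div_le_div_of_nonneg_left (by positivity) hφ0 hφq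
  have hD1le : Dv x 1 0 v η / φ ≤ 10 * (η * x * Real.log x) / φ := by
    apply div_le_div_of_nonneg_right _ hφ0.le
    have hq1 : (1 : ℝ) ≤ q := by exact_mod_cast hq
    have := Dv_le (a := 0) hx4 (le_refl 1) hv0 hvx hη hη1
      (by rw [Nat.cast_one]; linarith only [hqx, hq1])
    rw [Nat.cast_one, div_one] at this
    exact this
  have h6 : |F * (Dv x q a v η - Dv x 1 0 v η / φ)|
      ≤ |S| + 81 * η * F * (Dv x q a v η + Dv x 1 0 v η / φ) := by
    have h7 := abs_sub_abs_le_abs_sub (F * (Dv x q a v η - Dv x 1 0 v η / φ)) S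
    linarith only [h7, hbd]
  rw [abs_mul, abs_of_pos hF0] at h6
  have h8 : 81 * η * F * (Dv x q a v η + Dv x 1 0 v η / φ)
      ≤ F * (1620 * η ^ 2 * (x * Real.log x) / φ) := by
    have h9 : Dv x q a v η + Dv x 1 0 v η / φ ≤ 20 * (η * x * Real.log x) / φ := by
      have : 20 * (η * x * Real.log x) / φ = 10 * (η * x * Real.log x) / φ
          + 10 * (η * x * Real.log x) / φ := by ring
      linarith only [hDqle, hD1le, this]
    calc 81 * η * F * (Dv x q a v η + Dv x 1 0 v η / φ)
        ≤ 81 * η * F * (20 * (η * x * Real.log x) / φ) :=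
          mul_le_mul_of_nonneg_left h9 (by positivity)
      _ = F * (1620 * η ^ 2 * (x * Real.log x) / φ) := by ring
  have h10 : |S| ≤ F * (2 * x / m0 x k * |S|) := by
    have h11 : 1 ≤ F * (2 * x / m0 x k) := by
      calc (1 : ℝ) = m0 x k / (2 * x) * (2 * x / m0 x k) := by
            field_simp
        _ ≤ F * (2 * x / m0 x k) := mul_le_mul_of_nonneg_right hFge (by positivity)
    calc |S| = 1 * |S| := (one_mul _).symm
      _ ≤ F * (2 * x / m0 x k) * |S| := mul_le_mul_of_nonneg_right h11 (abs_nonneg _)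
      _ = F * (2 * x / m0 x k * |S|) := by ring
  have h12 : F * |Dv x q a v η - Dv x 1 0 v η / φ|
      ≤ F * (2 * x / m0 x k * |S| + 1620 * η ^ 2 * (x * Real.log x) / φ) := by
    rw [mul_add]
    linarith only [h6, h8, h10]
  exact le_of_mul_le_mul_left h12 hF0

end Pool.Agent.Helper53.TW
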