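import Pool.Agent.Helper83.TW.Goals1

/-! Packet TW-GErr (helper83, MP_39e2b7_an): the error of the new state. -/

set_option autoImplicit false

namespace Pool.Agent.Helper53.TW

open Complex Set Pool.Agent.Helper83.TW

theorem gerr (hGC : GCau) (hGE1 : GEE1) (hGE2 : GEE2) (hGF : GF) (hGT : GTT) : GErr := by
  intro ρ r s δ Λ η M hP g hg S c hOk hc hErr κ τ hCor hTau hcoh
  set E0 : ℂ → ℂ := fc (Err g S) 0 with hE0
  rintro ⟨θ', w⟩ ⟨hθ', hw⟩
  simp only at hθ' hw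
  have hδ0 := hP.hδ0
  have hs0 := hP.hs0
  have hs1 := hP.hs1
  have hΛ := hP.hΛ
  have hΛ0 : 0 < Λ := by linarith
  have hΛs := hP.hΛs
  have hη0 := hP.hη0
  have hη := hP.hη
  have hr0 := hP.hr0
  have hρ0 := hP.hρ0
  -- sizes
  have hΛδ : 1 ≤ Λ * δ := hP.M_le
  have h6 : Λ^6 * η ≤ 1/1024 := by
    have h1 : (1024:ℝ) ≤ Λ^34 := hΛ.trans (le_self_pow₀ (by linarith) (by norm_num))
    have h2 : Λ^6 * η * 1024 ≤ Λ^6 * η * Λ^34 := mul_le_mul_of_nonneg_left h1 (by positivity)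
    have h3 : Λ^6 * η * Λ^34 = Λ^40 * η := by ring
    linarith
  have hε : Λ^5 * η ≤ δ/1024 := by
    have h1 : Λ * (Λ^5 * η) ≤ Λ * (δ/1024) := by
      have h2 : Λ * (Λ^5 * η) = Λ^6 * η := by ring
      rw [h2]
      linarith
    exact le_of_mul_le_mul_left h1 hΛ0
  have hε0 : 0 < Λ^5 * η := by positivity
  have hinvδ : η / δ ≤ Λ * η := by
    rw [div_le_iff₀ hδ0]
    nlinarith
  have hinvs : η / (s/4) ≤ 4 * (Λ * η) := by
    rw [div_le_iff₀ (by positivity)]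
    nlinarith
  -- domains
  have hw38 : w ∈ Om (3*s/8) := Om_mono (by linarith) hw
  have hw2 : w ∈ Om (s/2) := Om_mono (by linarith) hw
  have hw34 : w ∈ Om (s - s/4) := Om_mono (by linarith) hw
  have hws : w ∈ Om s := Om_mono (by linarith) hw
  have hwim : |w.im| < s/4 := hw.2.2
  have hθw : |(θ' + w).im| < r - 13/2*δ := by
    have h1 : (θ' + w).im = θ'.im + w.im := by simp
    rw [h1]
    have := abs_add_le θ'.im w.im
    linarith
  have hb1 : ‖τ (θ', w)‖ ≤ Λ^5 * η := hTau.bτ (θ', w) ⟨by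
    show |θ'.im| < r - 13/2*δ
    linarith, hw38⟩
  have hb2 : ‖τ (θ' + w, w)‖ ≤ Λ^5 * η := hTau.bτ (θ' + w, w) ⟨hθw, hw38⟩
  set θ : ℂ := θ' + τ (θ', w) with hθdef
  set z : ℂ := τ (θ' + w, w) - τ (θ', w) with hzdef
  have hz : ‖z‖ ≤ 2 * (Λ^5 * η) := (norm_sub_le _ _).trans (by linarith)
  have hzδ : ‖z‖ < δ := by linarith
  have hθ : |θ.im| < r - 8*δ := by
    have h1 : θ.im = θ'.im + (τ (θ', w)).im := by simp [hθdef]
    rw [h1]
    have h2 := abs_add_le θ'.im (τ (θ', w)).im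
    have h3 := (Complex.abs_im_le_norm (τ (θ', w))).trans hb1
    linarith
  have hθw1 : |(θ + w).im| < r - 6*δ := by
    have h1 : (θ + w).im = θ.im + w.im := by simp
    rw [h1]
    have := abs_add_le θ.im w.im
    linarith
  have hθwz : |(θ + w + z).im| < r - 6*δ := by
    have h1 : (θ + w + z).im = (θ.im + w.im) + z.im := by simp
    rw [h1]
    have h2 := abs_add_le θ.im w.im
    have h3 := abs_add_le (θ.im + w.im) z.im
    have h4 := Complex.abs_im_le_norm z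
    linarith
  have hpt : θ' + w + τ (θ' + w, w) = θ + w + z := by
    rw [hθdef, hzdef]; ring
  -- the identity
  have hid : Err g (newS S κ E0 τ) (θ', w)
      = EE g S θ z w - (κ (θ + w + z, w) - κ (θ, w)) - deriv E0 w * z - E0 w := by
    have h1 : hh (newS S κ E0 τ) (θ', w) = hh S (θ, w) := by
      show θ' + (τ (θ', w) + S.u (θ' + τ (θ', w), w)) = θ + S.u (θ, w)
      rw [hθdef]; ring
    have h2 : de (newS S κ E0 τ) θ' 0 w = de S θ z w := by
      show w + 0 + (τ (θ' + w + 0, w) + S.u (θ' + w + 0 + τ (θ' + w + 0, w), w))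
        - (τ (θ', w) + S.u (θ' + τ (θ', w), w)) = w + z + S.u (θ + w + z, w) - S.u (θ, w)
      rw [add_zero, add_zero, hpt, hzdef, hθdef]
      ring
    have h3 : (newS S κ E0 τ).v (θ' + w + 0, w) - (newS S κ E0 τ).v (θ', w)
        = (S.a w + deriv E0 w) * z + (S.v (θ + w + z, w) - S.v (θ, w))
          + (κ (θ + w + z, w) - κ (θ, w)) := by
      show ((S.a w + deriv E0 w) * τ (θ' + w + 0, w) + S.v (θ' + w + 0 + τ (θ' + w + 0, w), w)
        + κ (θ' + w + 0 + τ (θ' + w + 0, w), w))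
        - ((S.a w + deriv E0 w) * τ (θ', w) + S.v (θ' + τ (θ', w), w)
        + κ (θ' + τ (θ', w), w)) = _
      rw [add_zero, hpt, hzdef, ← hθdef]
      ring
    show (de (newS S κ E0 τ) θ' 0 w) ^ 2 / 2
      + g (hh (newS S κ E0 τ) (θ', w), de (newS S κ E0 τ) θ' 0 w)
      - (S.a w + deriv E0 w) * (w + 0)
      - ((newS S κ E0 τ).v (θ' + w + 0, w) - (newS S κ E0 τ).v (θ', w))
      + (S.γ w + w * deriv E0 w - E0 w) = _
    rw [h1, h2, h3]
    unfold EE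
    ring
  have hsplit : EE g S θ z w - (κ (θ + w + z, w) - κ (θ, w)) - deriv E0 w * z - E0 w
      = (Err g S (θ, w) - E0 w - (κ (θ + w, w) - κ (θ, w)))
        + FF g S (θ, w) * z + (EE g S θ z w - EE g S θ 0 w - EEz g S θ 0 w * z)
        - (κ (θ + w + z, w) - κ (θ + w, w)) - deriv E0 w * z := by
    have h1 : Err g S (θ, w) = EE g S θ 0 w := rfl
    have h2 : FF g S (θ, w) = EEz g S θ 0 w := rfl
    rw [h1, h2]
    ring
  -- bounds
  have hDθ : ((θ, w) : ℂ × ℂ) ∈ Dom (r - 6*δ) (s/2) := ⟨by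
    show |θ.im| < r - 6*δ
    linarith, hw2⟩
  have b1 := hcoh (θ, w) hDθ
  simp only at b1
  have hH := (hGE1 ρ r s δ Λ η M hP g hg S c hOk hc).2.2.1
  have bD1 : ‖D1 (Err g S) (θ, w)‖ ≤ Λ * η := by
    have h1 := hGC.2.1 (Err g S) η (r - δ) s δ hδ0 hH.diff hErr (θ, w) ⟨by
      show |θ.im| < r - δ - δ
      linarith, hws⟩
    exact h1.trans hinvδ
  have bD2 : ‖D2 (Err g S) (θ, w)‖ ≤ 4 * (Λ * η) := by
    have h1 := hGC.2.2.1 (Err g S) η (r - δ) s (s/4) (by positivity) hH.diff hErr (θ, w) ⟨by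
      show |θ.im| < r - δ
      linarith, hw34⟩
    exact h1.trans hinvs
  have bF : ‖FF g S (θ, w)‖ ≤ 20 * (Λ * η) := by
    have h1 := (hGF ρ r s δ Λ η M hP g hg S c hOk hc (θ, w) ⟨by
      show |θ.im| < r - δ
      linarith, hws⟩).1
    linarith
  have b2 : ‖FF g S (θ, w) * z‖ ≤ 40 * (Λ^6 * η^2) := by
    rw [norm_mul]
    calc ‖FF g S (θ, w)‖ * ‖z‖ ≤ (20 * (Λ * η)) * (2 * (Λ^5 * η)) :=
          mul_le_mul bF hz (norm_nonneg _) (by positivity)
      _ = 40 * (Λ^6 * η^2) := by ring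
  have b3 : ‖EE g S θ z w - EE g S θ 0 w - EEz g S θ 0 w * z‖ ≤ 8 * (Λ^10 * η^2) := by
    have h1 := (hGE2 ρ r s δ Λ η M hP g hg S c hOk hc).2 θ z w (by linarith) hzδ hws
    refine h1.trans ?_
    calc 2 * ‖z‖^2 ≤ 2 * (2 * (Λ^5 * η))^2 := by
          have := pow_le_pow_left₀ (norm_nonneg z) hz 2
          linarith
      _ = 8 * (Λ^10 * η^2) := by ring
  have hT := hGT ρ r s δ Λ η M hP S c hOk hc κ E0 hCor
  have b4 : ‖κ (θ + w + z, w) - κ (θ + w, w)‖ ≤ 2 * (Λ^9 * η^2) := by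
    have hconv : Convex ℝ {x : ℂ | |x.im| < r - 6*δ} := by
      have h1 : {x : ℂ | |x.im| < r - 6*δ} = Complex.imCLM ⁻¹' (Ioo (-(r - 6*δ)) (r - 6*δ)) := by
        ext x
        simp [abs_lt]
      rw [h1]
      exact (convex_Ioo _ _).linear_preimage (Complex.imCLM : ℂ →ₗ[ℝ] ℝ)
    have hdiff : ∀ x ∈ {x : ℂ | |x.im| < r - 6*δ},
        DifferentiableAt ℂ (fun y => κ (y, w)) x := by
      intro x hx
      have hx' : |x.im| < r - 6*δ := hx
      have h1 : ((x, w) : ℂ × ℂ) ∈ Dom (r - 5*δ) (s/2) := ⟨by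
        show |x.im| < r - 5*δ
        linarith, hw2⟩
      have h2 : DifferentiableAt ℂ κ (x, w) :=
        hCor.hκ.diff.differentiableAt ((isOpen_Dom _ _).mem_nhds h1)
      exact h2.comp (f := fun y : ℂ => ((y, w) : ℂ × ℂ)) x
        (differentiableAt_id.prodMk (differentiableAt_const _))
    have h1 := hconv.norm_image_sub_le_of_norm_deriv_le (f := fun y => κ (y, w))
      (C := Λ^4 * η) hdiff (fun x hx => hT.2.2.2 (x, w) ⟨hx, hw2⟩) hθw1 hθwz
    refine h1.trans ?_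
    have h2 : θ + w + z - (θ + w) = z := by ring
    rw [h2]
    calc Λ^4 * η * ‖z‖ ≤ Λ^4 * η * (2 * (Λ^5 * η)) := mul_le_mul_of_nonneg_left hz (by positivity)
      _ = 2 * (Λ^9 * η^2) := by ring
  have b5 : ‖deriv E0 w * z‖ ≤ 2 * (Λ^7 * η^2) := by
    rw [norm_mul]
    calc ‖deriv E0 w‖ * ‖z‖ ≤ (Λ^2 * η) * (2 * (Λ^5 * η)) :=
          mul_le_mul (hT.2.2.1 w hw2).1 hz (norm_nonneg _) (by positivity)
      _ = 2 * (Λ^7 * η^2) := by ring
  rw [hid, hsplit]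
  set X1 := Err g S (θ, w) - E0 w - (κ (θ + w, w) - κ (θ, w)) with hX1
  set X2 := FF g S (θ, w) * z with hX2
  set X3 := EE g S θ z w - EE g S θ 0 w - EEz g S θ 0 w * z with hX3
  set X4 := κ (θ + w + z, w) - κ (θ + w, w) with hX4
  set X5 := deriv E0 w * z with hX5
  have hsum : ‖X1 + X2 + X3 - X4 - X5‖ ≤ ‖X1‖ + ‖X2‖ + ‖X3‖ + ‖X4‖ + ‖X5‖ := by
    have h1 := norm_add_le X1 X2
    have h2 := norm_add_le (X1 + X2) X3
    have h3 := norm_sub_le (X1 + X2 + X3) X4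
    have h4 := norm_sub_le (X1 + X2 + X3 - X4) X5
    linarith
  have hpow : ∀ a b : ℕ, a ≤ b → Λ^a * η^2 ≤ Λ^b * η^2 := fun a b hab =>
    mul_le_mul_of_nonneg_right (pow_le_pow_right₀ (by linarith) hab) (by positivity)
  have p6 := hpow 6 10 (by norm_num)
  have p9 := hpow 9 10 (by norm_num)
  have p7 := hpow 7 10 (by norm_num)
  have p10 : 1024 * (Λ^10 * η^2) ≤ Λ^18 * η^2 := by
    have h1 : (1024:ℝ) ≤ Λ^8 := hΛ.trans (le_self_pow₀ (by linarith) (by norm_num))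
    have h2 : Λ^10 * η^2 * 1024 ≤ Λ^10 * η^2 * Λ^8 := mul_le_mul_of_nonneg_left h1 (by positivity)
    have h3 : Λ^10 * η^2 * Λ^8 = Λ^18 * η^2 := by ring
    linarith
  have p18 : 1024 * (Λ^18 * η^2) ≤ Λ^20 * η^2 := by
    have h1 : (1024:ℝ) ≤ Λ^2 := hΛ.trans (le_self_pow₀ (by linarith) (by norm_num))
    have h2 : Λ^18 * η^2 * 1024 ≤ Λ^18 * η^2 * Λ^2 := mul_le_mul_of_nonneg_left h1 (by positivity)
    have h3 : Λ^18 * η^2 * Λ^2 = Λ^20 * η^2 := by ring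
    linarith
  have pp10 : 0 ≤ Λ^10 * η^2 := by positivity
  have pp18 : 0 ≤ Λ^18 * η^2 := by positivity
  refine hsum.trans ?_
  have e1 : Λ * η * Real.exp (-(2 * Real.pi * M * δ)) = Λ * η * Real.exp (-(2 * Real.pi * M * δ)) :=
    rfl
  linarith

end Pool.Agent.Helper53.TW
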