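import Pool.Agent.Helper83.TW.Goals1

/-! Packet TW-GLimit (helper83, MP_39e2b7_an): passage to the limit. -/

set_option autoImplicit false

namespace Pool.Agent.Helper53.TW

open Complex Set Filter Topology Pool.Agent.Helper83.TW

/-- a sequence with summable increments has a uniform limit -/
theorem exists_unif {X : Type*} (f : ℕ → X → ℂ) (K : Set X) (ε : ℕ → ℝ) (hε : Summable ε)
    (h : ∀ n, ∀ x ∈ K, ‖f (n+1) x - f n x‖ ≤ ε n) :
    ∃ F : X → ℂ, TendstoUniformlyOn f F atTop K := by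
  classical
  have hd : ∀ x ∈ K, ∀ n, dist (f n x) (f (n+1) x) ≤ ε n := by
    intro x hx n
    rw [dist_comm, dist_eq_norm]
    exact h n x hx
  have hl : ∀ x ∈ K, ∃ L : ℂ, Tendsto (fun n => f n x) atTop (𝓝 L) := by
    intro x hx
    exact cauchySeq_tendsto_of_complete (cauchySeq_of_dist_le_of_summable ε (hd x hx) hε)
  let F : X → ℂ := fun x => if hx : x ∈ K then Classical.choose (hl x hx) else 0
  have hF : ∀ x ∈ K, Tendsto (fun n => f n x) atTop (𝓝 (F x)) := by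
    intro x hx
    have : F x = Classical.choose (hl x hx) := by simp [F, hx]
    rw [this]
    exact Classical.choose_spec (hl x hx)
  refine ⟨F, ?_⟩
  rw [Metric.tendstoUniformlyOn_iff]
  intro e he
  have h1 : Tendsto (fun i => ∑' k, ε (k + i)) atTop (𝓝 0) := tendsto_sum_nat_add ε
  filter_upwards [h1.eventually (gt_mem_nhds he)] with n hn x hx
  rw [dist_comm]
  refine (dist_le_tsum_of_dist_le_of_tendsto ε (hd x hx) hε (hF x hx) n).trans_lt ?_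
  have : (fun m => ε (n + m)) = fun m => ε (m + n) := by
    funext m; rw [add_comm]
  rw [this]
  exact hn

theorem glimit (hGF : GF) (hGE : GEE1) (hGC : GCau) (hGD : GD12) : GLimit := by
  intro g ρ hg S r s δ Λ η M hS
  have hP := hS.prm
  have hρ0 : 0 < ρ := (hP 0).hρ0
  have hρ1 : ρ ≤ 1/4 := (hP 0).hρ1
  set e : ℕ → ℝ := fun n => (Λ n)^10 * η n with he
  have he_sum : Summable e := hS.sum
  have hOk := hS.ok
  have hcb := hS.cb
  have hr : ∀ n, ρ/8 < r n := fun n => by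
    have h1 := (hP n).hr0; have h2 := (hP n).hδ0; linarith
  have hs : ∀ n, 0 < s n := fun n => (hP n).hs0
  -- the common domain
  let T : Set ℂ := {z | |z.im| < ρ/8}
  have hTo : IsOpen T := isOpen_lt (continuous_abs.comp continuous_im) continuous_const
  let K : Set (ℂ × ℂ) := {p | |p.1.im| < ρ/8 ∧ ∃ x : ℝ, x ∈ Icc (1:ℝ) 2 ∧ p.2 = (x:ℂ)}
  have hW : ∀ n, ∀ x : ℝ, x ∈ Icc (1:ℝ) 2 → (x:ℂ) ∈ Om (s n) := by
    intro n x hx
    exact Om_real (by linarith [hx.1, hs n]) (by linarith [hx.2, hs n]) (hs n)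
  have hK : ∀ n, K ⊆ Dom (r n) (s n) := by
    rintro n p ⟨h1, x, hx, h2⟩
    refine ⟨h1.trans (hr n), ?_⟩
    rw [h2]
    exact hW n x hx
  -- limits
  obtain ⟨U, hU⟩ := exists_unif (fun n => (S n).u) K e he_sum
    (fun n p hp => (hS.clo n).cu p (hK (n+1) hp))
  obtain ⟨U1, hU1⟩ := exists_unif (fun n => D1 (S n).u) K e he_sum
    (fun n p hp => (hS.clo n).cu1 p (hK (n+1) hp))
  obtain ⟨V1, hV1⟩ := exists_unif (fun n => D1 (S n).v) K e he_sum
    (fun n p hp => (hS.clo n).cv1 p (hK (n+1) hp))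
  obtain ⟨A, hA⟩ := exists_unif (fun n (p : ℂ × ℂ) => (S n).a p.2) K e he_sum
    (fun n p hp => (hS.clo n).ca p.2 (hK (n+1) hp).2)
  -- bounds
  have hc : ∀ n, ∑ k ∈ Finset.range n, (Λ k)^10 * η k ≤ ρ/64 := fun n => by
    have := hcb n; linarith
  have bU : ∀ p ∈ K, ‖U p‖ ≤ 1/512 := fun p hp =>
    le_of_tendsto (hU.tendsto_at hp).norm (Eventually.of_forall fun n => by
      have h1 := (hOk n).bu p (hK n hp); have h2 := hcb n; linarith)
  have bU1 : ∀ p ∈ K, ‖U1 p‖ ≤ 1/512 := fun p hp =>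
    le_of_tendsto (hU1.tendsto_at hp).norm (Eventually.of_forall fun n => by
      have h1 := (hOk n).bu1 p (hK n hp); have h2 := hcb n; linarith)
  have bV1 : ∀ p ∈ K, ‖V1 p‖ ≤ 1/512 := fun p hp =>
    le_of_tendsto (hV1.tendsto_at hp).norm (Eventually.of_forall fun n => by
      have h1 := (hOk n).bv1 p (hK n hp); have h2 := hcb n; linarith)
  have bA : ∀ p ∈ K, ‖A p - p.2‖ ≤ 1/512 := fun p hp =>
    le_of_tendsto ((hA.tendsto_at hp).sub_const p.2).norm (Eventually.of_forall fun n => by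
      have h1 := (hOk n).ba p.2 (hK n hp).2; have h2 := hcb n; linarith)
  -- nonvanishing
  have hne : ∀ p ∈ K, 1 + U1 p ≠ 0 := by
    intro p hp h0
    have h1 := bU1 p hp
    have h2 : U1 p = -1 := by linear_combination h0
    rw [h2] at h1
    norm_num at h1
  -- periodicity
  have hKs : ∀ p ∈ K, ((p.1 + 1, p.2) : ℂ × ℂ) ∈ K := by
    rintro p ⟨h1, h2⟩
    exact ⟨by simpa using h1, h2⟩
  have pU : ∀ p ∈ K, U (p.1 + 1, p.2) = U p := fun p hp =>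
    tendsto_nhds_unique (hU.tendsto_at (hKs p hp)) ((hU.tendsto_at hp).congr fun n =>
      ((hOk n).hu.per p (hK n hp)).symm)
  -- slices
  have hTK : ∀ x : ℝ, x ∈ Icc (1:ℝ) 2 → ∀ z ∈ T, ((z, (x:ℂ)) : ℂ × ℂ) ∈ K :=
    fun x hx z hz => ⟨hz, x, hx, rfl⟩
  have hRK : ∀ x : ℝ, x ∈ Icc (1:ℝ) 2 → ∀ θ : ℝ, (((θ:ℂ), (x:ℂ)) : ℂ × ℂ) ∈ K := by
    intro x hx θ
    refine hTK x hx _ ?_
    show |((θ:ℂ)).im| < ρ/8
    simp [hρ0]
  have hRT : ∀ θ : ℝ, (θ:ℂ) ∈ T := by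
    intro θ
    show |((θ:ℂ)).im| < ρ/8
    simp [hρ0]
  have slice : ∀ (f : ℕ → ℂ × ℂ → ℂ) (F : ℂ × ℂ → ℂ), TendstoUniformlyOn f F atTop K →
      ∀ x : ℝ, x ∈ Icc (1:ℝ) 2 →
      TendstoLocallyUniformlyOn (fun n z => f n (z, (x:ℂ))) (fun z => F (z, (x:ℂ))) atTop T := by
    intro f F hf x hx
    have h1 := (hf.comp (fun z : ℂ => ((z, (x:ℂ)) : ℂ × ℂ))).mono
      (s' := T) (fun z hz => hTK x hx z hz)
    exact h1.tendstoLocallyUniformlyOn
  have hDo : ∀ n, IsOpen (Dom (r n) (s n)) := fun n => isOpen_Dom _ _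
  have dslice : ∀ (n : ℕ) (f : ℂ × ℂ → ℂ), DifferentiableOn ℂ f (Dom (r n) (s n)) →
      ∀ x : ℝ, x ∈ Icc (1:ℝ) 2 → DifferentiableOn ℂ (fun z => f (z, (x:ℂ))) T := by
    intro n f hf x hx
    refine hf.comp (f := fun z : ℂ => ((z, (x:ℂ)) : ℂ × ℂ)) ?_ ?_
    · exact (differentiable_id.prodMk (differentiable_const _)).differentiableOn
    · intro z hz
      exact hK n (hTK x hx z hz)
  have dU : ∀ x : ℝ, x ∈ Icc (1:ℝ) 2 → DifferentiableOn ℂ (fun z => U (z, (x:ℂ))) T :=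
    fun x hx => (slice _ _ hU x hx).differentiableOn
      (Eventually.of_forall fun n => dslice n _ (hOk n).hu.diff x hx) hTo
  have dU1 : ∀ x : ℝ, x ∈ Icc (1:ℝ) 2 → DifferentiableOn ℂ (fun z => U1 (z, (x:ℂ))) T :=
    fun x hx => (slice _ _ hU1 x hx).differentiableOn
      (Eventually.of_forall fun n => dslice n _ (hGD _ _ (hDo n) (hOk n).hu.diff).1 x hx) hTo
  have dV1 : ∀ x : ℝ, x ∈ Icc (1:ℝ) 2 → DifferentiableOn ℂ (fun z => V1 (z, (x:ℂ))) T :=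
    fun x hx => (slice _ _ hV1 x hx).differentiableOn
      (Eventually.of_forall fun n => dslice n _ (hGD _ _ (hDo n) (hOk n).hv.diff).1 x hx) hTo
  have derU : ∀ x : ℝ, x ∈ Icc (1:ℝ) 2 → ∀ z ∈ T,
      HasDerivAt (fun z => U (z, (x:ℂ))) (U1 (z, (x:ℂ))) z := by
    intro x hx z hz
    have h1 := ((slice _ _ hU x hx).deriv
      (Eventually.of_forall fun n => dslice n _ (hOk n).hu.diff x hx) hTo).tendsto_at hz
    have h2 := hU1.tendsto_at (hTK x hx z hz)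
    have h3 : deriv (fun z => U (z, (x:ℂ))) z = U1 (z, (x:ℂ)) :=
      tendsto_nhds_unique h1 h2
    rw [← h3]
    exact ((dU x hx).differentiableAt (hTo.mem_nhds hz)).hasDerivAt
  have aSlice : ∀ x : ℝ, x ∈ Icc (1:ℝ) 2 → ∀ z z' : ℂ, z ∈ T → z' ∈ T →
      A (z, (x:ℂ)) = A (z', (x:ℂ)) := fun x hx z z' hz hz' =>
    tendsto_nhds_unique (hA.tendsto_at (hTK x hx z hz)) (hA.tendsto_at (hTK x hx z' hz'))
  -- the limit of the slope
  let P : ℂ × ℂ → ℂ := fun p => (A p + V1 p) / (1 + U1 p)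
  have hP_lim : ∀ p ∈ K, Tendsto (fun n => pp (S n) p) atTop (𝓝 (P p)) := by
    intro p hp
    exact ((hA.tendsto_at hp).add (hV1.tendsto_at hp)).div
      (tendsto_const_nhds.add (hU1.tendsto_at hp)) (hne p hp)
  have pV1 : ∀ p ∈ K, V1 (p.1 + 1, p.2) = V1 p := by
    intro p hp
    refine tendsto_nhds_unique (hV1.tendsto_at (hKs p hp)) ((hV1.tendsto_at hp).congr fun n => ?_)
    show deriv (fun z => (S n).v (z, p.2)) p.1 = deriv (fun z => (S n).v (z, p.2)) (p.1 + 1)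
    have h1 : (fun z => (S n).v (z, p.2)) =ᶠ[𝓝 p.1] fun z => (S n).v (z + 1, p.2) := by
      have h2 : ∀ᶠ z in 𝓝 p.1, |z.im| < ρ/8 := hTo.mem_nhds hp.1
      filter_upwards [h2] with z hz
      exact ((hOk n).hv.per (z, p.2) (hK n ⟨hz, hp.2⟩)).symm
    rw [h1.deriv_eq]
    exact deriv_comp_add_const (fun z => (S n).v (z, p.2)) 1 p.1
  have pU1 : ∀ p ∈ K, U1 (p.1 + 1, p.2) = U1 p := by
    intro p hp
    refine tendsto_nhds_unique (hU1.tendsto_at (hKs p hp)) ((hU1.tendsto_at hp).congr fun n => ?_)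
    show deriv (fun z => (S n).u (z, p.2)) p.1 = deriv (fun z => (S n).u (z, p.2)) (p.1 + 1)
    have h1 : (fun z => (S n).u (z, p.2)) =ᶠ[𝓝 p.1] fun z => (S n).u (z + 1, p.2) := by
      have h2 : ∀ᶠ z in 𝓝 p.1, |z.im| < ρ/8 := hTo.mem_nhds hp.1
      filter_upwards [h2] with z hz
      exact ((hOk n).hu.per (z, p.2) (hK n ⟨hz, hp.2⟩)).symm
    rw [h1.deriv_eq]
    exact deriv_comp_add_const (fun z => (S n).u (z, p.2)) 1 p.1
  have pA : ∀ p ∈ K, A (p.1 + 1, p.2) = A p := by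
    rintro ⟨z, w⟩ ⟨hz, x, hx, hw⟩
    simp only at hz hw
    subst hw
    exact aSlice x hx _ _ (by show |(z+1).im| < ρ/8; simpa using hz) hz
  have pP : ∀ p ∈ K, P (p.1 + 1, p.2) = P p := by
    intro p hp
    show (A (p.1 + 1, p.2) + V1 (p.1 + 1, p.2)) / (1 + U1 (p.1 + 1, p.2)) = _
    rw [pA p hp, pV1 p hp, pU1 p hp]
  have bP : ∀ p ∈ K, ‖P p - p.2‖ ≤ 1/50 := by
    intro p hp
    obtain ⟨h0, x, hx, hpx⟩ := id hp
    have h1 : P p - p.2 = ((A p - p.2) + V1 p - p.2 * U1 p) / (1 + U1 p) := by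
      have := hne p hp
      show (A p + V1 p) / (1 + U1 p) - p.2 = _
      field_simp
      ring
    have h2 : (1:ℝ) - 1/512 ≤ ‖1 + U1 p‖ := by
      have h3 := norm_sub_norm_le (1:ℂ) (-U1 p)
      rw [norm_neg, sub_neg_eq_add, norm_one] at h3
      have := bU1 p hp
      linarith
    have h4 : ‖(A p - p.2) + V1 p - p.2 * U1 p‖ ≤ 1/512 + 1/512 + 2 * (1/512) := by
      have h5 : ‖p.2‖ ≤ 2 := by
        rw [hpx, Complex.norm_real, Real.norm_eq_abs, abs_le]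
        exact ⟨by linarith [hx.1], hx.2⟩
      calc ‖(A p - p.2) + V1 p - p.2 * U1 p‖ ≤ ‖(A p - p.2) + V1 p‖ + ‖p.2 * U1 p‖ :=
            norm_sub_le _ _
        _ ≤ ‖A p - p.2‖ + ‖V1 p‖ + ‖p.2‖ * ‖U1 p‖ := by
            rw [norm_mul]; linarith [norm_add_le (A p - p.2) (V1 p)]
        _ ≤ _ := by
            have := mul_le_mul h5 (bU1 p hp) (norm_nonneg _) (by norm_num)
            linarith [bA p hp, bV1 p hp]
    rw [h1, norm_div, div_le_iff₀ (by linarith)]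
    nlinarith
  -- reality
  have cjreal : ∀ x : ℝ, cj (x:ℂ) = x := fun x => Complex.conj_ofReal x
  have imz : ∀ z : ℂ, cj z = z → z.im = 0 := fun z hz => Complex.conj_eq_iff_im.1 hz
  have rU : ∀ x : ℝ, x ∈ Icc (1:ℝ) 2 → ∀ θ : ℝ, (U ((θ:ℂ), (x:ℂ))).im = 0 := by
    intro x hx θ
    apply imz
    have h1 := hU.tendsto_at (hRK x hx θ)
    refine tendsto_nhds_unique ((Complex.continuous_conj.tendsto _).comp h1) (h1.congr fun n => ?_)
    have h2 := (hOk n).hu.sym _ (hK n (hRK x hx θ))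
    simp only [cjreal] at h2
    exact h2
  have cj_der : ∀ (n : ℕ) (f : ℂ × ℂ → ℂ), Hol f (Dom (r n) (s n)) →
      ∀ x : ℝ, x ∈ Icc (1:ℝ) 2 → ∀ θ : ℝ, cj (D1 f ((θ:ℂ), (x:ℂ))) = D1 f ((θ:ℂ), (x:ℂ)) := by
    intro n f hf x hx θ
    have h0 : HasDerivAt (fun z => f (z, (x:ℂ))) (D1 f ((θ:ℂ), (x:ℂ))) (θ:ℂ) :=
      ((dslice n f hf.diff x hx).differentiableAt (hTo.mem_nhds (hRT θ))).hasDerivAt
    have h1 : HasDerivAt (fun z => cj (f (cj z, (x:ℂ)))) (cj (D1 f ((θ:ℂ), (x:ℂ)))) (cj (θ:ℂ)) := by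
      have := h0.conj_conj
      exact this
    rw [cjreal] at h1
    have h2 : (fun z => cj (f (cj z, (x:ℂ)))) =ᶠ[𝓝 (θ:ℂ)] fun z => f (z, (x:ℂ)) := by
      filter_upwards [hTo.mem_nhds (hRT θ)] with z hz
      have h3 := hf.sym _ (hK n (hTK x hx z hz))
      simp only [cjreal] at h3
      rw [h3]
      exact Complex.conj_conj _
    exact (h1.congr_of_eventuallyEq h2.symm).unique h0
  have rU1 : ∀ x : ℝ, x ∈ Icc (1:ℝ) 2 → ∀ θ : ℝ, (U1 ((θ:ℂ), (x:ℂ))).im = 0 := by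
    intro x hx θ
    apply imz
    have h1 := hU1.tendsto_at (hRK x hx θ)
    refine tendsto_nhds_unique ((Complex.continuous_conj.tendsto _).comp h1) (h1.congr fun n => ?_)
    exact (cj_der n _ (hOk n).hu x hx θ).symm
  have rV1 : ∀ x : ℝ, x ∈ Icc (1:ℝ) 2 → ∀ θ : ℝ, (V1 ((θ:ℂ), (x:ℂ))).im = 0 := by
    intro x hx θ
    apply imz
    have h1 := hV1.tendsto_at (hRK x hx θ)
    refine tendsto_nhds_unique ((Complex.continuous_conj.tendsto _).comp h1) (h1.congr fun n => ?_)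
    exact (cj_der n _ (hOk n).hv x hx θ).symm
  have rA : ∀ x : ℝ, x ∈ Icc (1:ℝ) 2 → ∀ θ : ℝ, (A ((θ:ℂ), (x:ℂ))).im = 0 := by
    intro x hx θ
    apply imz
    have h1 := hA.tendsto_at (hRK x hx θ)
    refine tendsto_nhds_unique ((Complex.continuous_conj.tendsto _).comp h1) (h1.congr fun n => ?_)
    have h2 := (hOk n).ha.sym _ (hK n (hRK x hx θ)).2
    simp only [cjreal] at h2
    exact h2
  have toReal : ∀ z : ℂ, z.im = 0 → ((z.re : ℝ) : ℂ) = z := fun z hz => by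
    apply Complex.ext <;> simp [hz]
  have rP : ∀ x : ℝ, x ∈ Icc (1:ℝ) 2 → ∀ θ : ℝ, (P ((θ:ℂ), (x:ℂ))).im = 0 := by
    intro x hx θ
    show ((A ((θ:ℂ), (x:ℂ)) + V1 ((θ:ℂ), (x:ℂ))) / (1 + U1 ((θ:ℂ), (x:ℂ)))).im = 0
    rw [← toReal _ (rA x hx θ), ← toReal _ (rV1 x hx θ), ← toReal _ (rU1 x hx θ)]
    rw [← Complex.ofReal_add, ← Complex.ofReal_one, ← Complex.ofReal_add, ← Complex.ofReal_div]
    exact Complex.ofReal_im _
  -- the functions
  let h : ℝ → ℝ → ℝ := fun x θ => ((θ:ℂ) + U ((θ:ℂ), (x:ℂ))).re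
  let p : ℝ → ℝ → ℝ := fun x θ => (P ((θ:ℂ), (x:ℂ))).re
  have hh_eq : ∀ x : ℝ, x ∈ Icc (1:ℝ) 2 → ∀ θ : ℝ, ((h x θ : ℝ) : ℂ) = θ + U ((θ:ℂ), (x:ℂ)) := by
    intro x hx θ
    refine toReal _ ?_
    simp [rU x hx θ]
  have hp_eq : ∀ x : ℝ, x ∈ Icc (1:ℝ) 2 → ∀ θ : ℝ, ((p x θ : ℝ) : ℂ) = P ((θ:ℂ), (x:ℂ)) := by
    intro x hx θ
    exact toReal _ (rP x hx θ)
  -- small quantities
  have hη0 : ∀ n, 0 < η n := fun n => (hP n).hη0
  have hΛ1 : ∀ n, 1 ≤ Λ n := fun n => by linarith [(hP n).hΛ]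
  have hΛη : Tendsto (fun n => Λ n * η n) atTop (𝓝 0) := by
    refine squeeze_zero (fun n => by have := hη0 n; have := hΛ1 n; positivity) (fun n => ?_)
      he_sum.tendsto_atTop_zero
    have h1 : Λ n ≤ (Λ n)^10 := by
      calc Λ n = (Λ n)^1 := (pow_one _).symm
        _ ≤ (Λ n)^10 := pow_le_pow_right₀ (hΛ1 n) (by norm_num)
    exact mul_le_mul_of_nonneg_right h1 (hη0 n).le
  have hηt : Tendsto η atTop (𝓝 0) := by
    refine squeeze_zero (fun n => (hη0 n).le) (fun n => ?_) hΛη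
    have h1 := hΛ1 n
    have h2 := (hη0 n).le
    nlinarith
  have herr : ∀ x : ℝ, x ∈ Icc (1:ℝ) 2 → ∀ θ : ℝ, ∀ n,
      ‖D1 (Err g (S n)) ((θ:ℂ), (x:ℂ))‖ + ‖D2 (Err g (S n)) ((θ:ℂ), (x:ℂ))‖
        ≤ 16 / ρ * η n + 2 * (Λ n * η n) := by
    intro x hx θ n
    have hH := (hGE ρ (r n) (s n) (δ n) (Λ n) (η n) (M n) (hP n) g hg (S n) _ (hOk n) (hc n)).2.2.1
    have hδ := (hP n).hδ0
    have hr0 := (hP n).hr0
    have h1 := hGC.2.1 (Err g (S n)) (η n) (r n - δ n) (s n) (ρ/16) (by positivity) hH.diff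
      (hS.err n) ((θ:ℂ), (x:ℂ)) ⟨by
        show |((θ:ℂ)).im| < r n - δ n - ρ/16
        rw [Complex.ofReal_im, abs_zero]; linarith, hW n x hx⟩
    have h2 := hGC.2.2.1 (Err g (S n)) (η n) (r n - δ n) (s n) (s n / 2) (by have := hs n; positivity)
      hH.diff (hS.err n) ((θ:ℂ), (x:ℂ)) ⟨by
        show |((θ:ℂ)).im| < r n - δ n
        rw [Complex.ofReal_im, abs_zero]; linarith, by
        have := hs n
        exact Om_real (by linarith [hx.1]) (by linarith [hx.2]) (by linarith)⟩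
    have h3 : η n / (ρ/16) = 16 / ρ * η n := by field_simp
    have h4 : η n / (s n / 2) ≤ 2 * (Λ n * η n) := by
      have h5 := hs n
      have h6 := (hP n).hΛs
      rw [div_le_iff₀ (by positivity)]
      have h7 := (hη0 n).le
      nlinarith
    rw [h3] at h1
    linarith
  have herr0 : Tendsto (fun n => 8 * (16 / ρ * η n + 2 * (Λ n * η n))) atTop (𝓝 0) := by
    have h1 := ((hηt.const_mul (16/ρ)).add (hΛη.const_mul 2)).const_mul 8
    simpa using h1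
  -- membership in the smaller domain
  have hmem : ∀ x : ℝ, x ∈ Icc (1:ℝ) 2 → ∀ θ : ℝ, ∀ n,
      (((θ:ℂ), (x:ℂ)) : ℂ × ℂ) ∈ Dom (r n - δ n) (s n) := by
    intro x hx θ n
    have hδ := (hP n).hδ0
    have hr0 := (hP n).hr0
    refine ⟨?_, hW n x hx⟩
    show |((θ:ℂ)).im| < r n - δ n
    rw [Complex.ofReal_im, abs_zero]; linarith
  have hDGo := isOpen_DG ρ
  have hgD := hGD g (DG ρ) hDGo hg.hol.diff
  have hD1c : ContinuousOn (D1 g) (DG ρ) := hgD.1.continuousOn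
  have hD2c : ContinuousOn (D2 g) (DG ρ) := hgD.2.1.continuousOn
  -- the two equations
  have heq : ∀ x : ℝ, x ∈ Icc (1:ℝ) 2 → ∀ θ : ℝ,
      ((h x (θ + x) - h x θ : ℝ) : ℂ)
          + D2 g ((h x θ : ℂ), ((h x (θ + x) - h x θ : ℝ) : ℂ)) = (p x (θ + x) : ℂ) ∧
        ((h x (θ + x) - h x θ : ℝ) : ℂ)
          + D2 g ((h x θ : ℂ), ((h x (θ + x) - h x θ : ℝ) : ℂ))
          - D1 g ((h x θ : ℂ), ((h x (θ + x) - h x θ : ℝ) : ℂ)) = (p x θ : ℂ) := by
    intro x hx θ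
    have hcast : ((θ + x : ℝ) : ℂ) = (θ:ℂ) + (x:ℂ) := by push_cast; ring
    have hKθ := hRK x hx θ
    have hKθx : (((θ:ℂ) + (x:ℂ), (x:ℂ)) : ℂ × ℂ) ∈ K := by
      rw [← hcast]; exact hRK x hx (θ + x)
    have l1 : Tendsto (fun n => hh (S n) ((θ:ℂ), (x:ℂ))) atTop (𝓝 ((h x θ : ℝ) : ℂ)) := by
      rw [hh_eq x hx θ]
      exact tendsto_const_nhds.add (hU.tendsto_at hKθ)
    have l2 : Tendsto (fun n => de (S n) (θ:ℂ) 0 (x:ℂ)) atTop
        (𝓝 ((h x (θ + x) - h x θ : ℝ) : ℂ)) := by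
      rw [Complex.ofReal_sub, hh_eq x hx θ, hh_eq x hx (θ + x), hcast]
      have h1 : Tendsto (fun n => (x:ℂ) + 0 + (S n).u ((θ:ℂ) + (x:ℂ) + 0, (x:ℂ))
          - (S n).u ((θ:ℂ), (x:ℂ))) atTop
          (𝓝 ((x:ℂ) + 0 + U ((θ:ℂ) + (x:ℂ), (x:ℂ)) - U ((θ:ℂ), (x:ℂ)))) := by
        rw [add_zero (_ + _ : ℂ)]
        exact (tendsto_const_nhds.add (hU.tendsto_at hKθx)).sub (hU.tendsto_at hKθ)
      have h2 : (x:ℂ) + 0 + U ((θ:ℂ) + (x:ℂ), (x:ℂ)) - U ((θ:ℂ), (x:ℂ))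
          = (θ:ℂ) + (x:ℂ) + U ((θ:ℂ) + (x:ℂ), (x:ℂ)) - ((θ:ℂ) + U ((θ:ℂ), (x:ℂ))) := by ring
      rw [← h2]
      exact h1
    have hlimmem : (((h x θ : ℝ) : ℂ), ((h x (θ + x) - h x θ : ℝ) : ℂ)) ∈ DG ρ := by
      have h1 := bU _ hKθ
      have h2 := bU _ hKθx
      have h3 : h x (θ + x) - h x θ = x + (U ((θ:ℂ) + (x:ℂ), (x:ℂ))).re
          - (U ((θ:ℂ), (x:ℂ))).re := by
        show (((θ + x : ℝ) : ℂ) + U (((θ + x : ℝ) : ℂ), (x:ℂ))).re
          - ((θ:ℂ) + U ((θ:ℂ), (x:ℂ))).re = _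
        rw [hcast]
        simp
        ring
      have h4 := (Complex.abs_re_le_norm (U ((θ:ℂ) + (x:ℂ), (x:ℂ)))).trans h2
      have h5 := (Complex.abs_re_le_norm (U ((θ:ℂ), (x:ℂ)))).trans h1
      rw [abs_le] at h4 h5
      refine ⟨?_, ?_, ?_, ?_⟩
      · show |(((h x θ : ℝ) : ℂ)).im| < ρ
        rw [Complex.ofReal_im, abs_zero]; exact hρ0
      · show 1/4 < (((h x (θ + x) - h x θ : ℝ) : ℂ)).re
        rw [Complex.ofReal_re, h3]; linarith [hx.1]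
      · show (((h x (θ + x) - h x θ : ℝ) : ℂ)).re < 11/4
        rw [Complex.ofReal_re, h3]; linarith [hx.2]
      · show |(((h x (θ + x) - h x θ : ℝ) : ℂ)).im| < ρ
        rw [Complex.ofReal_im, abs_zero]; exact hρ0
    have lpair := l1.prodMk_nhds l2
    have l3 : Tendsto (fun n => D2 g (hh (S n) ((θ:ℂ), (x:ℂ)), de (S n) (θ:ℂ) 0 (x:ℂ))) atTop
        (𝓝 (D2 g ((h x θ : ℂ), ((h x (θ + x) - h x θ : ℝ) : ℂ)))) :=
      ((hD2c.continuousAt (hDGo.mem_nhds hlimmem)).tendsto).comp lpair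
    have l4 : Tendsto (fun n => D1 g (hh (S n) ((θ:ℂ), (x:ℂ)), de (S n) (θ:ℂ) 0 (x:ℂ))) atTop
        (𝓝 (D1 g ((h x θ : ℂ), ((h x (θ + x) - h x θ : ℝ) : ℂ)))) :=
      ((hD1c.continuousAt (hDGo.mem_nhds hlimmem)).tendsto).comp lpair
    have l5 : Tendsto (fun n => pp (S n) ((θ:ℂ) + (x:ℂ), (x:ℂ))) atTop
        (𝓝 ((p x (θ + x) : ℝ) : ℂ)) := by
      rw [hp_eq x hx (θ + x), hcast]
      exact hP_lim _ hKθx
    have l6 : Tendsto (fun n => pp (S n) ((θ:ℂ), (x:ℂ))) atTop (𝓝 ((p x θ : ℝ) : ℂ)) := by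
      rw [hp_eq x hx θ]
      exact hP_lim _ hKθ
    have hF : ∀ n, _ := fun n => hGF ρ (r n) (s n) (δ n) (Λ n) (η n) (M n) (hP n) g hg (S n) _
      (hOk n) (hc n) ((θ:ℂ), (x:ℂ)) (hmem x hx θ n)
    constructor
    · have l7 : Tendsto (fun n => de (S n) (θ:ℂ) 0 (x:ℂ)
          + D2 g (hh (S n) ((θ:ℂ), (x:ℂ)), de (S n) (θ:ℂ) 0 (x:ℂ))
          - pp (S n) ((θ:ℂ) + (x:ℂ), (x:ℂ))) atTop (𝓝 0) := by
        rw [tendsto_zero_iff_norm_tendsto_zero]
        refine squeeze_zero (fun n => norm_nonneg _) (fun n => ?_) herr0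
        have h1 := (hF n).2.1
        have h2 := herr x hx θ n
        exact h1.trans (by linarith)
      have l8 := (l2.add l3).sub l5
      exact sub_eq_zero.1 (tendsto_nhds_unique l8 l7)
    · have l7 : Tendsto (fun n => de (S n) (θ:ℂ) 0 (x:ℂ)
          + D2 g (hh (S n) ((θ:ℂ), (x:ℂ)), de (S n) (θ:ℂ) 0 (x:ℂ))
          - D1 g (hh (S n) ((θ:ℂ), (x:ℂ)), de (S n) (θ:ℂ) 0 (x:ℂ))
          - pp (S n) ((θ:ℂ), (x:ℂ))) atTop (𝓝 0) := by
        rw [tendsto_zero_iff_norm_tendsto_zero]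
        refine squeeze_zero (fun n => norm_nonneg _) (fun n => ?_) herr0
        have h1 := (hF n).2.2
        have h2 := herr x hx θ n
        exact h1.trans (by linarith)
      have l8 := ((l2.add l3).sub l4).sub l6
      exact sub_eq_zero.1 (tendsto_nhds_unique l8 l7)
  -- joint continuity
  let ι : ℝ × ℝ → ℂ × ℂ := fun q => ((q.2:ℂ), (q.1:ℂ))
  have hι : Continuous ι :=
    (Complex.continuous_ofReal.comp continuous_snd).prodMk
      (Complex.continuous_ofReal.comp continuous_fst)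
  have hιK : ∀ q ∈ Icc (1:ℝ) 2 ×ˢ (univ : Set ℝ), ι q ∈ K := fun q hq => hRK q.1 hq.1 q.2
  have jc : ∀ (f : ℕ → ℂ × ℂ → ℂ) (F : ℂ × ℂ → ℂ), TendstoUniformlyOn f F atTop K →
      (∀ n, ContinuousOn (f n) (Dom (r n) (s n))) →
      ContinuousOn (fun q => F (ι q)) (Icc (1:ℝ) 2 ×ˢ (univ : Set ℝ)) := by
    intro f F hf hfc
    have h1 := (hf.comp ι).mono (s' := Icc (1:ℝ) 2 ×ˢ (univ : Set ℝ)) (fun q hq => hιK q hq)
    refine h1.continuousOn (Frequently.of_forall fun n => ?_)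
    exact (hfc n).comp hι.continuousOn (fun q hq => hK n (hιK q hq))
  have jU := jc _ _ hU (fun n => (hOk n).hu.diff.continuousOn)
  have jU1 := jc _ _ hU1 (fun n => (hGD _ _ (hDo n) (hOk n).hu.diff).1.continuousOn)
  have jV1 := jc _ _ hV1 (fun n => (hGD _ _ (hDo n) (hOk n).hv.diff).1.continuousOn)
  have jA := jc _ _ hA (fun n => (hOk n).ha.diff.continuousOn.comp continuous_snd.continuousOn
    (fun q hq => hq.2))
  refine ⟨h, p, ?_, ?_, ?_⟩
  · intro w hw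
    refine ⟨?_, ?_, ?_⟩
    · intro θ _
      have h1 : AnalyticAt ℂ (fun z : ℂ => z + U (z, (w:ℂ))) (θ:ℂ) :=
        ((differentiableOn_id.add (dU w hw)).analyticOnNhd hTo) _ (hRT θ)
      exact h1.re_ofReal
    · intro θ _
      have dA : DifferentiableOn ℂ (fun z => A (z, (w:ℂ))) T := by
        have h2 : ∀ z ∈ T, A (z, (w:ℂ)) = A (0, (w:ℂ)) := fun z hz =>
          aSlice w hw z 0 hz (by show |(0:ℂ).im| < ρ/8; simp [hρ0])
        exact (differentiableOn_const _).congr h2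
      have h1 : AnalyticAt ℂ (fun z : ℂ => P (z, (w:ℂ))) (θ:ℂ) := by
        refine (DifferentiableOn.analyticOnNhd ?_ hTo) _ (hRT θ)
        exact (dA.add (dV1 w hw)).div ((differentiableOn_const _).add (dU1 w hw))
          (fun z hz => hne _ (hTK w hw z hz))
      exact h1.re_ofReal
    · intro θ
      have hcast1 : ((θ + 1 : ℝ) : ℂ) = (θ:ℂ) + 1 := by push_cast; ring
      refine ⟨?_, ?_, ?_, ?_, ?_, (heq w hw θ).1, (heq w hw θ).2⟩
      · show (((θ + 1 : ℝ) : ℂ) + U (((θ + 1 : ℝ) : ℂ), (w:ℂ))).re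
          = ((θ:ℂ) + U ((θ:ℂ), (w:ℂ))).re + 1
        have h1 := pU _ (hRK w hw θ)
        simp only at h1
        rw [hcast1, h1]
        simp
        ring
      · show (P (((θ + 1 : ℝ) : ℂ), (w:ℂ))).re = (P ((θ:ℂ), (w:ℂ))).re
        have h1 := pP _ (hRK w hw θ)
        simp only at h1
        rw [hcast1, h1]
      · have h1 : h w θ - θ = (U ((θ:ℂ), (w:ℂ))).re := by
          show ((θ:ℂ) + U ((θ:ℂ), (w:ℂ))).re - θ = _
          simp
        rw [h1]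
        have := (Complex.abs_re_le_norm (U ((θ:ℂ), (w:ℂ)))).trans (bU _ (hRK w hw θ))
        linarith
      · have h1 : p w θ - w = (P ((θ:ℂ), (w:ℂ)) - (w:ℂ)).re := by
          show (P ((θ:ℂ), (w:ℂ))).re - w = _
          simp
        rw [h1]
        exact (Complex.abs_re_le_norm _).trans (bP _ (hRK w hw θ))
      · have h1 : HasDerivAt (fun z : ℂ => z + U (z, (w:ℂ))) (1 + U1 ((θ:ℂ), (w:ℂ))) (θ:ℂ) :=
          (hasDerivAt_id _).add (derU w hw _ (hRT θ))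
        have h2 : HasDerivAt (h w) (1 + U1 ((θ:ℂ), (w:ℂ))).re θ := h1.real_of_complex
        rw [h2.deriv]
        have h3 := (Complex.abs_re_le_norm (U1 ((θ:ℂ), (w:ℂ)))).trans (bU1 _ (hRK w hw θ))
        rw [abs_le] at h3
        simp
        linarith
  · have h1 : ContinuousOn (fun q : ℝ × ℝ => ((q.2:ℂ) + U (ι q)).re)
        (Icc (1:ℝ) 2 ×ˢ (univ : Set ℝ)) :=
      Complex.continuous_re.comp_continuousOn
        ((Complex.continuous_ofReal.comp continuous_snd).continuousOn.add jU)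
    exact h1
  · have h1 : ContinuousOn (fun q : ℝ × ℝ => (P (ι q)).re)
        (Icc (1:ℝ) 2 ×ˢ (univ : Set ℝ)) :=
      Complex.continuous_re.comp_continuousOn
        ((jA.add jV1).div (continuousOn_const.add jU1) (fun q hq => hne _ (hιK q hq)))
    exact h1

end Pool.Agent.Helper53.TW
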