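import Pool.Agent.Helper83.TW.Goals1

/-! Packet TW-GRESA (helper83, MP_39e2b7_an): the abstract fixed point problem. -/

set_option autoImplicit false

namespace Pool.Agent.Helper53.TW

open Complex Pool.Agent.Helper83.TW

/-- points of the perturbed orbit, for a vector of increments -/
noncomputable def al (w0 : ℝ) (z : ℕ → ℂ) (α : ℂ) (i : ℕ) : ℂ :=
  α + i * w0 + ∑ l ∈ Finset.range i, z l

/-- the partial sums -/
noncomputable def yy (A B : ℂ → ℂ → ℂ) (w0 : ℝ) (z : ℕ → ℂ) (α : ℂ) (i : ℕ) : ℂ :=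
  ∑ l ∈ Finset.range i, A (al w0 z α (l+1)) (z (l+1)) - B (al w0 z α i) (z i)

/-- the map whose fixed point is wanted -/
noncomputable def Ph (A B : ℂ → ℂ → ℂ) (w0 : ℝ) (m : ℕ) (z : ℕ → ℂ) (α : ℂ) (i : ℕ) : ℂ :=
  if i < m then yy A B w0 z α i - (1 / (m:ℂ)) * ∑ k ∈ Finset.range m, yy A B w0 z α k else 0

theorem al_im {R δ ν w0 : ℝ} {m : ℕ} (hν : 0 ≤ ν) (hm : m * ν ≤ δ) {z : ℕ → ℂ} {α : ℂ}
    (hα : |α.im| < R - δ) (hz : ∀ l, ‖z l‖ ≤ ν) {i : ℕ} (hi : i ≤ m) :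
    |(al w0 z α i).im| < R := by
  have h1 : (al w0 z α i).im = α.im + (∑ l ∈ Finset.range i, z l).im := by
    simp [al]
  have h2 : |(∑ l ∈ Finset.range i, z l).im| ≤ i * ν := by
    refine (Complex.abs_im_le_norm _).trans ((norm_sum_le _ _).trans ?_)
    calc ∑ l ∈ Finset.range i, ‖z l‖ ≤ ∑ _l ∈ Finset.range i, ν :=
          Finset.sum_le_sum fun l _ => hz l
      _ = i * ν := by simp
  have h3 : (i:ℝ) * ν ≤ m * ν := mul_le_mul_of_nonneg_right (by exact_mod_cast hi) hν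
  rw [h1]
  calc |α.im + (∑ l ∈ Finset.range i, z l).im| ≤ |α.im| + |(∑ l ∈ Finset.range i, z l).im| :=
        abs_add_le _ _
    _ < R := by linarith

theorem al_sub {w0 D : ℝ} {z z' : ℕ → ℂ} {α : ℂ} (hzz : ∀ l, ‖z l - z' l‖ ≤ D) (i : ℕ) :
    ‖al w0 z α i - al w0 z' α i‖ ≤ i * D := by
  have h1 : al w0 z α i - al w0 z' α i = ∑ l ∈ Finset.range i, (z l - z' l) := by
    simp [al, Finset.sum_sub_distrib]
  rw [h1]
  refine (norm_sum_le _ _).trans ?_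
  calc ∑ l ∈ Finset.range i, ‖z l - z' l‖ ≤ ∑ _l ∈ Finset.range i, D :=
        Finset.sum_le_sum fun l _ => hzz l
    _ = i * D := by simp

/-- the bound of `Ph` by a bound of `yy` -/
theorem mean_bound {m : ℕ} (hm1 : 1 ≤ m) {f : ℕ → ℂ} {b : ℝ} (hf : ∀ i, i < m → ‖f i‖ ≤ b)
    {i : ℕ} (hi : i < m) :
    ‖f i - (1 / (m:ℂ)) * ∑ k ∈ Finset.range m, f k‖ ≤ 2 * b := by
  have hm0 : (0:ℝ) < m := by exact_mod_cast hm1
  have h1 : ‖(1 / (m:ℂ)) * ∑ k ∈ Finset.range m, f k‖ ≤ b := by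
    rw [norm_mul]
    have h2 : ‖(1 / (m:ℂ))‖ = 1 / (m:ℝ) := by simp
    rw [h2]
    have h3 : ‖∑ k ∈ Finset.range m, f k‖ ≤ m * b := by
      refine (norm_sum_le _ _).trans ?_
      calc ∑ k ∈ Finset.range m, ‖f k‖ ≤ ∑ _k ∈ Finset.range m, b :=
            Finset.sum_le_sum fun k hk => hf k (Finset.mem_range.1 hk)
        _ = m * b := by simp
    calc 1 / (m:ℝ) * ‖∑ k ∈ Finset.range m, f k‖ ≤ 1 / (m:ℝ) * (m * b) :=
          mul_le_mul_of_nonneg_left h3 (by positivity)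
      _ = b := by field_simp
  calc ‖f i - (1 / (m:ℂ)) * ∑ k ∈ Finset.range m, f k‖
      ≤ ‖f i‖ + ‖(1 / (m:ℂ)) * ∑ k ∈ Finset.range m, f k‖ := norm_sub_le _ _
    _ ≤ 2 * b := by linarith [hf i hi]

section main

variable {R δ ν ε0 ε1 w0 : ℝ} {m : ℕ} {A B : ℂ → ℂ → ℂ}

theorem yy_bound (hν : 0 < ν) (hm1 : 1 ≤ m) (hε0 : 0 ≤ ε0) (hm : m * ν ≤ δ)
    (hAb : ∀ α z : ℂ, |α.im| < R → ‖z‖ < 2*ν → ‖A α z‖ ≤ ε0)
    (hBb : ∀ α z : ℂ, |α.im| < R → ‖z‖ < 2*ν → ‖B α z‖ ≤ ε0 + ‖z‖ / 16)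
    {z : ℕ → ℂ} {α : ℂ} (hα : |α.im| < R - δ) (hz : ∀ l, ‖z l‖ ≤ ν) {i : ℕ} (hi : i < m) :
    ‖yy A B w0 z α i‖ ≤ m * ε0 + ν / 16 := by
  have hz2 : ∀ l, ‖z l‖ < 2 * ν := fun l => by linarith [hz l]
  have h1 : ‖∑ l ∈ Finset.range i, A (al w0 z α (l+1)) (z (l+1))‖ ≤ i * ε0 := by
    refine (norm_sum_le _ _).trans ?_
    calc ∑ l ∈ Finset.range i, ‖A (al w0 z α (l+1)) (z (l+1))‖
        ≤ ∑ _l ∈ Finset.range i, ε0 := Finset.sum_le_sum fun l hl => by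
          have hl' := Finset.mem_range.1 hl
          exact hAb _ _ (al_im hν.le hm hα hz (by omega)) (hz2 _)
      _ = i * ε0 := by simp
  have h2 : ‖B (al w0 z α i) (z i)‖ ≤ ε0 + ν / 16 := by
    have := hBb (al w0 z α i) (z i) (al_im hν.le hm hα hz hi.le) (hz2 _)
    have h3 := hz i
    linarith
  have h3 : ((i:ℝ) + 1) * ε0 ≤ m * ε0 :=
    mul_le_mul_of_nonneg_right (by exact_mod_cast hi) hε0
  calc ‖yy A B w0 z α i‖ ≤ ‖∑ l ∈ Finset.range i, A (al w0 z α (l+1)) (z (l+1))‖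
        + ‖B (al w0 z α i) (z i)‖ := norm_sub_le _ _
    _ ≤ m * ε0 + ν / 16 := by nlinarith

theorem Ph_bound (hν : 0 < ν) (hm1 : 1 ≤ m) (hε0 : 0 ≤ ε0) (hm : m * ν ≤ δ)
    (h4 : 4 * (m + 1) * ε0 ≤ ν)
    (hAb : ∀ α z : ℂ, |α.im| < R → ‖z‖ < 2*ν → ‖A α z‖ ≤ ε0)
    (hBb : ∀ α z : ℂ, |α.im| < R → ‖z‖ < 2*ν → ‖B α z‖ ≤ ε0 + ‖z‖ / 16)
    {z : ℕ → ℂ} {α : ℂ} (hα : |α.im| < R - δ) (hz : ∀ l, ‖z l‖ ≤ ν) (i : ℕ) :
    ‖Ph A B w0 m z α i‖ ≤ ν := by
  unfold Ph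
  split_ifs with hi
  · refine (mean_bound hm1 (fun k hk => yy_bound hν hm1 hε0 hm hAb hBb hα hz hk) hi).trans ?_
    nlinarith
  · simpa using hν.le

theorem yy_lip (hν : 0 < ν) (hm1 : 1 ≤ m) (hε1 : 0 ≤ ε1) (hm : m * ν ≤ δ)
    (h16 : 16 * m * (m + 2) * ε1 ≤ 1)
    (hAl : ∀ α α' z z' : ℂ, |α.im| < R → |α'.im| < R → ‖z‖ < 2*ν → ‖z'‖ < 2*ν →
      ‖A α z - A α' z'‖ ≤ ε1 * (‖α - α'‖ + ‖z - z'‖))
    (hBl : ∀ α α' z z' : ℂ, |α.im| < R → |α'.im| < R → ‖z‖ < 2*ν → ‖z'‖ < 2*ν →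
      ‖B α z - B α' z'‖ ≤ ε1 * ‖α - α'‖ + ‖z - z'‖ / 16)
    {z z' : ℕ → ℂ} {α : ℂ} {D : ℝ} (hα : |α.im| < R - δ) (hz : ∀ l, ‖z l‖ ≤ ν)
    (hz' : ∀ l, ‖z' l‖ ≤ ν) (hzz : ∀ l, ‖z l - z' l‖ ≤ D) {i : ℕ} (hi : i < m) :
    ‖yy A B w0 z α i - yy A B w0 z' α i‖ ≤ D / 8 := by
  have hD : 0 ≤ D := (norm_nonneg _).trans (hzz 0)
  have hz2 : ∀ l, ‖z l‖ < 2 * ν := fun l => by linarith [hz l]
  have hz2' : ∀ l, ‖z' l‖ < 2 * ν := fun l => by linarith [hz' l]
  have hmR : (0:ℝ) < m := by exact_mod_cast hm1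
  have him : (i:ℝ) + 1 ≤ m := by exact_mod_cast hi
  have h1 : ‖∑ l ∈ Finset.range i, A (al w0 z α (l+1)) (z (l+1))
      - ∑ l ∈ Finset.range i, A (al w0 z' α (l+1)) (z' (l+1))‖ ≤ i * (ε1 * (m * D + D)) := by
    rw [← Finset.sum_sub_distrib]
    refine (norm_sum_le _ _).trans ?_
    calc ∑ l ∈ Finset.range i, ‖A (al w0 z α (l+1)) (z (l+1)) - A (al w0 z' α (l+1)) (z' (l+1))‖
        ≤ ∑ _l ∈ Finset.range i, ε1 * (m * D + D) := Finset.sum_le_sum fun l hl => by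
          have hl' := Finset.mem_range.1 hl
          refine (hAl _ _ _ _ (al_im hν.le hm hα hz (by omega))
            (al_im hν.le hm hα hz' (by omega)) (hz2 _) (hz2' _)).trans ?_
          refine mul_le_mul_of_nonneg_left ?_ hε1
          have h5 := al_sub (w0 := w0) (α := α) hzz (l+1)
          have h6 := hzz (l+1)
          have h7 : (((l+1 : ℕ) : ℝ)) * D ≤ m * D :=
            mul_le_mul_of_nonneg_right (by exact_mod_cast (by omega : l + 1 ≤ m)) hD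
          linarith
      _ = i * (ε1 * (m * D + D)) := by simp
  have h2 : ‖B (al w0 z α i) (z i) - B (al w0 z' α i) (z' i)‖ ≤ ε1 * (m * D) + D / 16 := by
    refine (hBl _ _ _ _ (al_im hν.le hm hα hz hi.le)
      (al_im hν.le hm hα hz' hi.le) (hz2 _) (hz2' _)).trans ?_
    have h5 := al_sub (w0 := w0) (α := α) hzz i
    have h6 := hzz i
    have h7 : (i : ℝ) * D ≤ m * D := mul_le_mul_of_nonneg_right (by exact_mod_cast hi.le) hD
    have h8 : ε1 * ‖al w0 z α i - al w0 z' α i‖ ≤ ε1 * (m * D) :=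
      mul_le_mul_of_nonneg_left (h5.trans h7) hε1
    linarith
  have h3 : yy A B w0 z α i - yy A B w0 z' α i
      = (∑ l ∈ Finset.range i, A (al w0 z α (l+1)) (z (l+1))
        - ∑ l ∈ Finset.range i, A (al w0 z' α (l+1)) (z' (l+1)))
        - (B (al w0 z α i) (z i) - B (al w0 z' α i) (z' i)) := by
    unfold yy; ring
  have h9 : (i:ℝ) * (ε1 * (m * D + D)) ≤ m * (ε1 * (m * D + D)) :=
    mul_le_mul_of_nonneg_right (by linarith) (by positivity)
  have h10 : 16 * m * (m + 2) * ε1 * D ≤ 1 * D := mul_le_mul_of_nonneg_right h16 hD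
  rw [h3]
  calc _ ≤ i * (ε1 * (m * D + D)) + (ε1 * (m * D) + D / 16) :=
        (norm_sub_le _ _).trans (add_le_add h1 h2)
    _ ≤ D / 8 := by nlinarith

theorem Ph_lip (hν : 0 < ν) (hm1 : 1 ≤ m) (hε1 : 0 ≤ ε1) (hm : m * ν ≤ δ)
    (h16 : 16 * m * (m + 2) * ε1 ≤ 1)
    (hAl : ∀ α α' z z' : ℂ, |α.im| < R → |α'.im| < R → ‖z‖ < 2*ν → ‖z'‖ < 2*ν →
      ‖A α z - A α' z'‖ ≤ ε1 * (‖α - α'‖ + ‖z - z'‖))
    (hBl : ∀ α α' z z' : ℂ, |α.im| < R → |α'.im| < R → ‖z‖ < 2*ν → ‖z'‖ < 2*ν →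
      ‖B α z - B α' z'‖ ≤ ε1 * ‖α - α'‖ + ‖z - z'‖ / 16)
    {z z' : ℕ → ℂ} {α : ℂ} {D : ℝ} (hα : |α.im| < R - δ) (hz : ∀ l, ‖z l‖ ≤ ν)
    (hz' : ∀ l, ‖z' l‖ ≤ ν) (hzz : ∀ l, ‖z l - z' l‖ ≤ D) (i : ℕ) :
    ‖Ph A B w0 m z α i - Ph A B w0 m z' α i‖ ≤ D / 4 := by
  have hD : 0 ≤ D := (norm_nonneg _).trans (hzz 0)
  unfold Ph
  split_ifs with hi
  · have h1 := mean_bound (f := fun i => yy A B w0 z α i - yy A B w0 z' α i) hm1
      (fun k hk => yy_lip (w0 := w0) hν hm1 hε1 hm h16 hAl hBl hα hz hz' hzz hk) hi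
    have h2 : yy A B w0 z α i - 1 / (m:ℂ) * ∑ k ∈ Finset.range m, yy A B w0 z α k -
        (yy A B w0 z' α i - 1 / (m:ℂ) * ∑ k ∈ Finset.range m, yy A B w0 z' α k)
        = (yy A B w0 z α i - yy A B w0 z' α i) - 1 / (m:ℂ) * ∑ k ∈ Finset.range m,
          (yy A B w0 z α k - yy A B w0 z' α k) := by
      rw [Finset.sum_sub_distrib]; ring
    rw [h2]
    linarith
  · simpa using by positivity

theorem cj_sub (a b : ℂ) : cj (a - b) = cj a - cj b := map_sub _ _ _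

theorem cj_mul (a b : ℂ) : cj (a * b) = cj a * cj b := map_mul _ _ _

theorem cj_sum (f : ℕ → ℂ) (s : Finset ℕ) : cj (∑ i ∈ s, f i) = ∑ i ∈ s, cj (f i) :=
  map_sum _ _ _

theorem al_cj {z z' : ℕ → ℂ} {α : ℂ} (hz : ∀ l, z' l = cj (z l)) (i : ℕ) :
    al w0 z' (cj α) i = cj (al w0 z α i) := by
  simp [al, hz]

theorem yy_cj (hν : 0 < ν) (hm : m * ν ≤ δ)
    (hAs : ∀ α z : ℂ, |α.im| < R → ‖z‖ < 2*ν → A (cj α) (cj z) = cj (A α z))
    (hBs : ∀ α z : ℂ, |α.im| < R → ‖z‖ < 2*ν → B (cj α) (cj z) = cj (B α z))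
    {z z' : ℕ → ℂ} {α : ℂ} (hα : |α.im| < R - δ) (hz : ∀ l, ‖z l‖ ≤ ν)
    (hzz : ∀ l, z' l = cj (z l)) {i : ℕ} (hi : i < m) :
    yy A B w0 z' (cj α) i = cj (yy A B w0 z α i) := by
  have hz2 : ∀ l, ‖z l‖ < 2 * ν := fun l => by linarith [hz l]
  unfold yy
  rw [cj_sub, cj_sum]
  congr 1
  · refine Finset.sum_congr rfl fun l hl => ?_
    have hl' := Finset.mem_range.1 hl
    rw [al_cj hzz, hzz (l+1), hAs _ _ (al_im hν.le hm hα hz (by omega)) (hz2 _)]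
  · rw [al_cj hzz, hzz i, hBs _ _ (al_im hν.le hm hα hz hi.le) (hz2 _)]

theorem Ph_cj (hν : 0 < ν) (hm : m * ν ≤ δ)
    (hAs : ∀ α z : ℂ, |α.im| < R → ‖z‖ < 2*ν → A (cj α) (cj z) = cj (A α z))
    (hBs : ∀ α z : ℂ, |α.im| < R → ‖z‖ < 2*ν → B (cj α) (cj z) = cj (B α z))
    {z z' : ℕ → ℂ} {α : ℂ} (hα : |α.im| < R - δ) (hz : ∀ l, ‖z l‖ ≤ ν)
    (hzz : ∀ l, z' l = cj (z l)) (i : ℕ) :
    Ph A B w0 m z' (cj α) i = cj (Ph A B w0 m z α i) := by
  unfold Ph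
  split_ifs with hi
  · rw [cj_sub, cj_mul, cj_sum, yy_cj hν hm hAs hBs hα hz hzz hi]
    congr 1
    congr 1
    · simp
    · exact Finset.sum_congr rfl fun k hk =>
        yy_cj hν hm hAs hBs hα hz hzz (Finset.mem_range.1 hk)
  · simp

theorem al_diff {U : Set ℂ} {z : ℕ → ℂ → ℂ} (hz : ∀ i, DifferentiableOn ℂ (z i) U) (i : ℕ) :
    DifferentiableOn ℂ (fun α => al w0 (fun l => z l α) α i) U := by
  unfold al
  refine DifferentiableOn.add (differentiableOn_id.add (differentiableOn_const _)) ?_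
  exact DifferentiableOn.fun_sum fun l _ => hz l

theorem Ph_diff (hν : 0 < ν) (hm : m * ν ≤ δ)
    (hA : DifferentiableOn ℂ (fun q : ℂ × ℂ => A q.1 q.2) {q | |q.1.im| < R ∧ ‖q.2‖ < 2*ν})
    (hB : DifferentiableOn ℂ (fun q : ℂ × ℂ => B q.1 q.2) {q | |q.1.im| < R ∧ ‖q.2‖ < 2*ν})
    {z : ℕ → ℂ → ℂ} (hzd : ∀ i, DifferentiableOn ℂ (z i) {α | |α.im| < R - δ})
    (hz : ∀ α : ℂ, |α.im| < R - δ → ∀ l, ‖z l α‖ ≤ ν) (i : ℕ) :
    DifferentiableOn ℂ (fun α => Ph A B w0 m (fun l => z l α) α i) {α | |α.im| < R - δ} := by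
  have hA' : ∀ l, l ≤ m → DifferentiableOn ℂ
      (fun α => A (al w0 (fun l => z l α) α l) (z l α)) {α | |α.im| < R - δ} := by
    intro l hl
    have h1 : DifferentiableOn ℂ (fun α => ((al w0 (fun l => z l α) α l, z l α) : ℂ × ℂ))
        {α | |α.im| < R - δ} := (al_diff hzd l).prodMk (hzd l)
    refine hA.comp h1 ?_
    intro α hα
    exact ⟨al_im hν.le hm hα (hz α hα) hl, by linarith [hz α hα l]⟩
  have hB' : ∀ l, l ≤ m → DifferentiableOn ℂ
      (fun α => B (al w0 (fun l => z l α) α l) (z l α)) {α | |α.im| < R - δ} := by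
    intro l hl
    have h1 : DifferentiableOn ℂ (fun α => ((al w0 (fun l => z l α) α l, z l α) : ℂ × ℂ))
        {α | |α.im| < R - δ} := (al_diff hzd l).prodMk (hzd l)
    refine hB.comp h1 ?_
    intro α hα
    exact ⟨al_im hν.le hm hα (hz α hα) hl, by linarith [hz α hα l]⟩
  have hy : ∀ k, k < m → DifferentiableOn ℂ (fun α => yy A B w0 (fun l => z l α) α k)
      {α | |α.im| < R - δ} := by
    intro k hk
    unfold yy
    refine DifferentiableOn.sub (DifferentiableOn.fun_sum fun l hl => ?_) (hB' k hk.le)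
    have hl' := Finset.mem_range.1 hl
    exact hA' (l+1) (by omega)
  unfold Ph
  by_cases hi : i < m
  · simp only [hi, if_true]
    refine (hy i hi).sub ((DifferentiableOn.fun_sum fun k hk => ?_).const_mul _)
    exact hy k (Finset.mem_range.1 hk)
  · simp only [hi, if_false]
    exact differentiableOn_const _

end main

/-- the iterates -/
noncomputable def ZZ (A B : ℂ → ℂ → ℂ) (w0 : ℝ) (m : ℕ) : ℕ → ℕ → ℂ → ℂ
  | 0, _, _ => 0
  | n+1, i, α => Ph A B w0 m (fun l => ZZ A B w0 m n l α) α i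

theorem gresa : GRESA := by
  intro R δ ν ε0 ε1 w0 m A B hδ hν hm1 hε0 hε1 hm h4 h16 hA hB hAs hBs hAb hBb hAl hBl
  set U : Set ℂ := {α | |α.im| < R - δ} with hU
  have hUo : IsOpen U := isOpen_lt (continuous_abs.comp continuous_im) continuous_const
  have hUc : ∀ α ∈ U, cj α ∈ U := by
    intro α hα
    have : |α.im| < R - δ := hα
    show |(cj α).im| < R - δ
    simpa using this
  set Z := ZZ A B w0 m with hZdef
  have hb : ∀ n, ∀ α : ℂ, |α.im| < R - δ → ∀ i, ‖Z n i α‖ ≤ ν := by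
    intro n
    induction n with
    | zero => intro α hα i; simp [hZdef, ZZ, hν.le]
    | succ n ih =>
      intro α hα i
      exact Ph_bound hν hm1 hε0 hm h4 hAb hBb hα (ih α hα) i
  have hd : ∀ n, ∀ i, DifferentiableOn ℂ (Z n i) U := by
    intro n
    induction n with
    | zero => intro i; exact differentiableOn_const _
    | succ n ih =>
      intro i
      exact Ph_diff hν hm hA hB ih (hb n) i
  have hs : ∀ n, ∀ α : ℂ, |α.im| < R - δ → ∀ i, Z n i (cj α) = cj (Z n i α) := by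
    intro n
    induction n with
    | zero => intro α hα i; simp [hZdef, ZZ]
    | succ n ih =>
      intro α hα i
      exact Ph_cj hν hm hAs hBs hα (hb n α hα) (ih α hα) i
  have hc : ∀ n, ∀ α : ℂ, |α.im| < R - δ → ∀ i, ‖Z n i α - Z (n+1) i α‖ ≤ ν * (1/4)^n := by
    intro n
    induction n with
    | zero =>
      intro α hα i
      have := hb 1 α hα i
      simpa [hZdef, ZZ] using this
    | succ n ih =>
      intro α hα i
      have h1 := Ph_lip (w0 := w0) hν hm1 hε1 hm h16 hAl hBl hα (hb n α hα) (hb (n+1) α hα)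
        (ih α hα) i
      have h2 : ν * (1/4 : ℝ)^(n+1) = ν * (1/4)^n / 4 := by ring
      rw [h2]
      exact h1
  -- the limit
  have hlim : ∀ α : ℂ, |α.im| < R - δ → ∀ i, ∃ L : ℂ, Filter.Tendsto (fun n => Z n i α)
      Filter.atTop (nhds L) := by
    intro α hα i
    have h1 : CauchySeq (fun n => Z n i α) := by
      refine cauchySeq_of_le_geometric (1/4) ν (by norm_num) ?_
      intro n
      rw [dist_eq_norm]
      exact hc n α hα i
    exact cauchySeq_tendsto_of_complete h1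
  classical
  let z : ℕ → ℂ → ℂ := fun i α =>
    if h : |α.im| < R - δ then Classical.choose (hlim α h i) else 0
  have hz : ∀ α : ℂ, |α.im| < R - δ → ∀ i, Filter.Tendsto (fun n => Z n i α)
      Filter.atTop (nhds (z i α)) := by
    intro α hα i
    have : z i α = Classical.choose (hlim α hα i) := by simp [z, hα]
    rw [this]
    exact Classical.choose_spec (hlim α hα i)
  have hdist : ∀ α : ℂ, |α.im| < R - δ → ∀ i n, ‖Z n i α - z i α‖ ≤ ν * (1/4)^n / (1 - 1/4) := by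
    intro α hα i n
    rw [← dist_eq_norm]
    refine dist_le_of_le_geometric_of_tendsto (1/4) ν (by norm_num) ?_ (hz α hα i) n
    intro n
    rw [dist_eq_norm]
    exact hc n α hα i
  have hgeo : Filter.Tendsto (fun n : ℕ => ν * (1/4 : ℝ)^n / (1 - 1/4)) Filter.atTop (nhds 0) := by
    have h1 : Filter.Tendsto (fun n : ℕ => (1/4 : ℝ)^n) Filter.atTop (nhds 0) :=
      tendsto_pow_atTop_nhds_zero_of_lt_one (by norm_num) (by norm_num)
    have h2 := (h1.const_mul ν).div_const (1 - 1/4)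
    simpa using h2
  have hunif : ∀ i, TendstoUniformlyOn (fun n => Z n i) (z i) Filter.atTop U := by
    intro i
    rw [Metric.tendstoUniformlyOn_iff]
    intro ε hε
    filter_upwards [hgeo.eventually (gt_mem_nhds hε)] with n hn α hα
    rw [dist_comm, dist_eq_norm]
    exact (hdist α hα i n).trans_lt hn
  have hzd : ∀ i, DifferentiableOn ℂ (z i) U := by
    intro i
    refine (hunif i).tendstoLocallyUniformlyOn.differentiableOn ?_ hUo
    exact Filter.Eventually.of_forall fun n => hd n i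
  have hzb : ∀ α : ℂ, |α.im| < R - δ → ∀ i, ‖z i α‖ ≤ ν := by
    intro α hα i
    exact le_of_tendsto ((hz α hα i).norm) (Filter.Eventually.of_forall fun n => hb n α hα i)
  have hzs : ∀ α : ℂ, |α.im| < R - δ → ∀ i, z i (cj α) = cj (z i α) := by
    intro α hα i
    have h1 := hz (cj α) (hUc α hα) i
    have h2 : Filter.Tendsto (fun n => cj (Z n i α)) Filter.atTop (nhds (cj (z i α))) :=
      (Complex.continuous_conj.tendsto _).comp (hz α hα i)
    refine tendsto_nhds_unique h1 (h2.congr fun n => ?_)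
    exact (hs n α hα i).symm
  have hfix : ∀ α : ℂ, |α.im| < R - δ → ∀ i, z i α = Ph A B w0 m (fun l => z l α) α i := by
    intro α hα i
    have h1 : Filter.Tendsto (fun n => Z (n+1) i α) Filter.atTop (nhds (z i α)) :=
      (hz α hα i).comp (Filter.tendsto_add_atTop_nat 1)
    have h2 : Filter.Tendsto (fun n => Z (n+1) i α) Filter.atTop
        (nhds (Ph A B w0 m (fun l => z l α) α i)) := by
      rw [tendsto_iff_norm_sub_tendsto_zero]
      have h3 : Filter.Tendsto (fun n : ℕ => ν * (1/4 : ℝ)^n / (1 - 1/4) / 4) Filter.atTop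
          (nhds 0) := by simpa using hgeo.div_const 4
      refine squeeze_zero (fun n => norm_nonneg _) (fun n => ?_) h3
      exact Ph_lip (w0 := w0) hν hm1 hε1 hm h16 hAl hBl hα (hb n α hα) (hzb α hα)
        (fun l => hdist α hα l n) i
    exact tendsto_nhds_unique h1 h2
  refine ⟨z, hzd, ?_⟩
  intro α hα
  have hmC : (m:ℂ) ≠ 0 := by
    have : m ≠ 0 := by omega
    exact_mod_cast this
  have hy : ∀ i, i < m → z i α = yy A B w0 (fun l => z l α) α i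
      - 1 / (m:ℂ) * ∑ k ∈ Finset.range m, yy A B w0 (fun l => z l α) α k := by
    intro i hi
    have h1 := hfix α hα i
    rw [h1]
    unfold Ph
    simp only [hi, if_true]
  have hpt : ∀ i, pt w0 z α i = al w0 (fun l => z l α) α i := fun i => rfl
  refine ⟨fun i => ⟨hzb α hα i, hzs α hα i⟩, ?_, ?_, ?_⟩
  · intro i hi
    rw [hpt]
    exact al_im hν.le hm hα (hzb α hα) hi
  · rw [Finset.sum_congr rfl fun i hi => hy i (Finset.mem_range.1 hi), Finset.sum_sub_distrib]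
    simp only [Finset.sum_const, Finset.card_range, nsmul_eq_mul]
    field_simp
    ring
  · intro i hi
    rw [hpt, hpt]
    have h1 := hy (i+1) hi
    have h2 := hy i (by omega)
    have h3 : yy A B w0 (fun l => z l α) α (i+1) + B (al w0 (fun l => z l α) α (i+1)) (z (i+1) α)
        = yy A B w0 (fun l => z l α) α i + B (al w0 (fun l => z l α) α i) (z i α)
          + A (al w0 (fun l => z l α) α (i+1)) (z (i+1) α) := by
      unfold yy
      rw [Finset.sum_range_succ]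
      ring
    linear_combination h1 - h2 + h3

end Pool.Agent.Helper53.TW
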